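import Pool.Agent.H308R2.PPL.Lattice
set_option autoImplicit false

namespace Pool.Agent.H308R2.FibPal

/-- weak sign condition -/
def Wk (s : Bool) (x : ℝ) : Prop := if s then 0 ≤ x else x ≤ 0
/-- strict sign condition -/
def Ps (s : Bool) (x : ℝ) : Prop := if s then 0 < x else x < 0
/-- indicator of equality -/
def eqn (a b : Bool) : ℕ := if a = b then 1 else 0

lemma Ps.wk {s : Bool} {x : ℝ} (h : Ps s x) : Wk s x := by
  cases s <;> simp only [Ps, Wk, if_true, Bool.false_eq_true, if_false] at * <;> linarith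

lemma exists_wk (x : ℝ) : ∃ s, Wk s x := by
  rcases le_total 0 x with h | h
  · exact ⟨true, by simpa [Wk] using h⟩
  · exact ⟨false, by simpa [Wk] using h⟩

lemma exists_ps {x : ℝ} (hx : x ≠ 0) : ∃ s, Ps s x := by
  rcases lt_or_gt_of_ne hx with h | h
  · exact ⟨false, by simpa [Ps] using h⟩
  · exact ⟨true, by simpa [Ps] using h⟩

/-- the lattice point `(j,k)` is an `ε`-gap point for the position `y` -/
def gap (ε : ℝ) (y j k : ℤ) : Prop := (|(y : ℝ) - j| + 1) * |st j k| ≤ ε

/-- chains of gap points, with the number of equal neighbours in the sign sequence -/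
inductive Ch (ε : ℝ) (y : ℤ) : ℤ → ℤ → Bool → ℕ → Prop
  | nil (j k : ℤ) (S : Bool) (hg : gap ε y j k) (hS : Wk S ((y : ℝ) - j)) : Ch ε y j k S 0
  | cons (j k : ℤ) (S : Bool) (j' k' : ℤ) (S' h : Bool) (v : ℕ) (hg : gap ε y j k)
      (hS : Ps S ((y : ℝ) - j)) (ho : 1 / 8 ≤ |(y : ℝ) - j| * |st j' k'|) (hh : Ps h (st j' k'))
      (hc : Ch ε y j' k' S' v) : Ch ε y j k S (v + eqn S h + eqn h S')

lemma Ch.gap {ε : ℝ} {y j k : ℤ} {S : Bool} {v : ℕ} (h : Ch ε y j k S v) : gap ε y j k := by
  cases h <;> assumption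

lemma Ch.wk {ε : ℝ} {y j k : ℤ} {S : Bool} {v : ℕ} (h : Ch ε y j k S v) :
    Wk S ((y : ℝ) - j) := by
  cases h
  · assumption
  · exact Ps.wk (by assumption)

lemma sep {ε : ℝ} (hε : ε ≤ 1 / 24) {y j k j' k' : ℤ} (h1 : gap ε y j k)
    (h2 : gap ε y j' k') (ho : 1 / 8 ≤ |(y : ℝ) - j| * |st j' k'|) :
    3 * (|(y : ℝ) - j'| + 1) ≤ |(y : ℝ) - j| ∧ 3 * |st j k| ≤ |st j' k'| := by
  unfold gap at h1 h2
  have a1 := abs_nonneg ((y : ℝ) - j)
  have a2 := abs_nonneg ((y : ℝ) - j')
  have a3 := abs_nonneg (st j k)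
  have a4 := abs_nonneg (st j' k')
  have p4 : 0 < |st j' k'| := by
    rcases eq_or_lt_of_le a4 with h | h
    · rw [← h] at ho; norm_num at ho
    · exact h
  have p1 : 0 < |(y : ℝ) - j| := by
    rcases eq_or_lt_of_le a1 with h | h
    · rw [← h] at ho; norm_num at ho
    · exact h
  constructor
  · by_contra hcon
    push Not at hcon
    have := mul_lt_mul_of_pos_right hcon p4
    nlinarith
  · by_contra hcon
    push Not at hcon
    have := mul_lt_mul_of_pos_left hcon p1
    nlinarith

lemma dich {ε : ℝ} (hε : ε ≤ 1 / 24) {y j k j' k' : ℤ} (h1 : gap ε y j k)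
    (h2 : gap ε y j' k') (hne : ¬ (j = j' ∧ k = k')) :
    1 / 8 ≤ |(y : ℝ) - j| * |st j' k'| ∨ 1 / 8 ≤ |(y : ℝ) - j'| * |st j k| := by
  unfold gap at h1 h2
  have a1 := abs_nonneg ((y : ℝ) - j)
  have a2 := abs_nonneg ((y : ℝ) - j')
  have a3 := abs_nonneg (st j k)
  have a4 := abs_nonneg (st j' k')
  by_cases hj : j = j'
  · exfalso
    have hk : k ≠ k' := fun h => hne ⟨hj, h⟩
    subst hj
    have e : st j k - st j k' = ((k - k' : ℤ) : ℝ) := by unfold st; push_cast; ring
    have h3 : (1 : ℝ) ≤ |st j k - st j k'| := by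
      rw [e]
      have : (1 : ℤ) ≤ |k - k'| := Int.one_le_abs (sub_ne_zero.mpr hk)
      exact_mod_cast this
    have h4 : |st j k - st j k'| ≤ |st j k| + |st j k'| := abs_sub _ _
    nlinarith
  · have h3 := norm_bound (k - k') (sub_ne_zero.mpr hj)
    rw [st_sub] at h3
    have h4 : |st j k - st j' k'| ≤ |st j k| + |st j' k'| := abs_sub _ _
    have h5 : |((j - j' : ℤ) : ℝ)| ≤ |(y : ℝ) - j| + |(y : ℝ) - j'| := by
      have : ((j - j' : ℤ) : ℝ) = ((y : ℝ) - j') - ((y : ℝ) - j) := by push_cast; ring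
      rw [this]
      have := abs_sub ((y : ℝ) - j') ((y : ℝ) - j)
      linarith
    have h6 : |st j k - st j' k'| * |((j - j' : ℤ) : ℝ)| ≤
        (|st j k| + |st j' k'|) * (|(y : ℝ) - j| + |(y : ℝ) - j'|) :=
      mul_le_mul h4 h5 (abs_nonneg _) (by linarith)
    by_contra hcon
    push Not at hcon
    nlinarith

/-- one palindromic step, in terms of the lattice -/
structure Flip (y y' κ : ℤ) : Prop where
  pos : 1 ≤ y'
  lt : y' < y
  no1 : ∀ i k : ℤ, y' ≤ i → i ≤ y → ¬ (0 < st i k ∧ st i k < st (y + y') κ)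
  no2 : ∀ i k : ℤ, y' ≤ i → i ≤ y → ¬ (st (y + y') κ < st i k ∧ st i k < 0)

lemma Flip.bound {y y' κ : ℤ} (F : Flip y y' κ) : |st (y + y') κ| * ((y : ℝ) - y') ≤ 6 :=
  window_bound F.lt.le F.no1 F.no2

lemma st_flip (y y' κ j k : ℤ) : st (y + y' - j) (κ - k) = st (y + y') κ - st j k :=
  st_sub _ _ _ _

lemma keep_or_flip {ε ε' : ℝ} (hε' : 0 < ε') (hε'2 : ε' ≤ 1 / 24) (hε : ε ≤ ε' ^ 2 / 24)
    {y y' κ j k : ℤ} (F : Flip y y' κ) (hg : gap ε y j k) :
    gap ε' y' j k ∨ gap ε' y' (y + y' - j) (κ - k) := by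
  have hb := F.bound
  have hL : (0 : ℝ) < (y : ℝ) - y' := by
    have : (y' : ℝ) < y := by exact_mod_cast F.lt
    linarith
  obtain ⟨L, hLd⟩ : ∃ L : ℝ, L = (y : ℝ) - y' := ⟨_, rfl⟩
  obtain ⟨Q, hQ⟩ : ∃ Q : ℝ, Q = st (y + y') κ := ⟨_, rfl⟩
  obtain ⟨s, hs⟩ : ∃ s : ℝ, s = |st j k| := ⟨_, rfl⟩
  obtain ⟨u, hu⟩ : ∃ u : ℝ, u = |(y : ℝ) - j| := ⟨_, rfl⟩
  rw [← hLd] at hb hL
  rw [← hQ] at hb
  have hs0 : 0 ≤ s := by rw [hs]; exact abs_nonneg _
  have hu0 : 0 ≤ u := by rw [hu]; exact abs_nonneg _
  have hg' : (u + 1) * s ≤ ε := by rw [hu, hs]; exact hg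
  by_cases hk : L * s ≤ ε' / 2
  · left
    unfold gap
    rw [← hs]
    have h1 : |(y' : ℝ) - j| ≤ u + L := by
      have : (y' : ℝ) - j = ((y : ℝ) - j) - L := by rw [hLd]; ring
      rw [this, hu]
      have := abs_sub ((y : ℝ) - j) L
      rw [abs_of_pos hL] at this
      exact this
    have h2 : (|(y' : ℝ) - j| + 1) * s ≤ (u + L + 1) * s :=
      mul_le_mul_of_nonneg_right (by linarith) hs0
    nlinarith
  · right
    push Not at hk
    unfold gap
    rw [st_flip, ← hQ]
    have e1 : |(y' : ℝ) - ((y + y' - j : ℤ) : ℝ)| = u := by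
      have : (y' : ℝ) - ((y + y' - j : ℤ) : ℝ) = -((y : ℝ) - j) := by push_cast; ring
      rw [this, abs_neg, hu]
    rw [e1]
    have h3 : |Q - st j k| ≤ |Q| + s := by rw [hs]; exact abs_sub _ _
    have h4 : (u + 1) * |Q - st j k| ≤ (u + 1) * (|Q| + s) :=
      mul_le_mul_of_nonneg_left h3 (by linarith)
    -- (u+1) |Q| ≤ ε'/2
    have h5 : (u + 1) * |Q| ≤ ε' / 2 := by
      have hQ0 := abs_nonneg Q
      -- (u+1)|Q| * (L s) ≤ 6 ε ≤ ε'^2/4 ≤ (ε'/2) * (L s)
      have hLs : 0 < L * s := by linarith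
      have h6 : ((u + 1) * |Q|) * (L * s) ≤ 6 * ε := by
        have : ((u + 1) * |Q|) * (L * s) = (|Q| * L) * ((u + 1) * s) := by ring
        rw [this]
        have h7 : 0 ≤ (u + 1) * s := by positivity
        calc (|Q| * L) * ((u + 1) * s) ≤ 6 * ((u + 1) * s) := mul_le_mul_of_nonneg_right hb h7
          _ ≤ 6 * ε := by linarith
      by_contra hcon
      push Not at hcon
      have := mul_lt_mul_of_pos_right hcon hLs
      nlinarith
    nlinarith

lemma gap_flip_next {ε ε' : ℝ} (hε2 : ε ≤ ε' / 2) (hε3 : ε ≤ 1 / 24)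
    {y y' κ j k j' k' : ℤ}
    (h1 : gap ε y j k) (h2 : gap ε y j' k') (ho : 1 / 8 ≤ |(y : ℝ) - j| * |st j' k'|)
    (hf : gap ε' y' (y + y' - j) (κ - k)) : gap ε' y' (y + y' - j') (κ - k') := by
  obtain ⟨s1, s2⟩ := sep hε3 h1 h2 ho
  unfold gap at *
  rw [st_flip] at *
  have e1 : ∀ i : ℤ, |(y' : ℝ) - ((y + y' - i : ℤ) : ℝ)| = |(y : ℝ) - i| := by
    intro i
    have : (y' : ℝ) - ((y + y' - i : ℤ) : ℝ) = -((y : ℝ) - i) := by push_cast; ring
    rw [this, abs_neg]
  rw [e1] at *
  generalize st (y + y') κ = Q at *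
  have h3 : |Q - st j' k'| ≤ |Q - st j k| + (|st j k| + |st j' k'|) := by
    have : Q - st j' k' = (Q - st j k) + (st j k - st j' k') := by ring
    rw [this]
    refine (abs_add_le _ _).trans ?_
    have := abs_sub (st j k) (st j' k')
    linarith
  have a1 := abs_nonneg ((y : ℝ) - j)
  have a2 := abs_nonneg ((y : ℝ) - j')
  have a3 := abs_nonneg (st j k)
  have a4 := abs_nonneg (st j' k')
  have a5 := abs_nonneg (Q - st j k)
  have h4 : (|(y : ℝ) - j'| + 1) * |Q - st j' k'| ≤
      (|(y : ℝ) - j'| + 1) * (|Q - st j k| + (|st j k| + |st j' k'|)) :=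
    mul_le_mul_of_nonneg_left h3 (by linarith)
  have h5 : 3 * ((|(y : ℝ) - j'| + 1) * |Q - st j k|) ≤ (|(y : ℝ) - j| + 1) * |Q - st j k| := by
    nlinarith
  have h6 : 3 * ((|(y : ℝ) - j'| + 1) * |st j k|) ≤ (|(y : ℝ) - j| + 1) * |st j k| := by
    nlinarith
  have h7 : (|(y : ℝ) - j'| + 1) * (|Q - st j k| + (|st j k| + |st j' k'|)) =
      (|(y : ℝ) - j'| + 1) * |Q - st j k| + (|(y : ℝ) - j'| + 1) * |st j k| +
        (|(y : ℝ) - j'| + 1) * |st j' k'| := by ring
  linarith

lemma chain_flip {ε ε' : ℝ} (hε0 : 0 ≤ ε) (hε2 : ε ≤ ε' / 2) (hε3 : ε' ≤ 1 / 24)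
    {y y' κ j k : ℤ} {S : Bool} {v : ℕ} (hc : Ch ε y j k S v)
    (hf : gap ε' y' (y + y' - j) (κ - k)) :
    Ch ε' y' (y + y' - j) (κ - k) (!S) v := by
  have hε4 : ε ≤ 1 / 24 := by linarith
  have e1 : ∀ i : ℤ, (y' : ℝ) - ((y + y' - i : ℤ) : ℝ) = -((y : ℝ) - i) := by
    intro i; push_cast; ring
  induction hc with
  | nil j k S hg hS =>
    refine Ch.nil _ _ _ hf ?_
    rw [e1]
    cases S <;> simp only [Wk, Bool.not_true, Bool.not_false, if_true, Bool.false_eq_true,
      if_false] at * <;> linarith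
  | cons j k S j' k' S' h v hg hS ho hh hc ih =>
    have hg' := hc.gap
    have hf' := gap_flip_next hε2 hε4 hg hg' ho hf
    obtain ⟨s1, s2⟩ := sep hε4 hg hg' ho
    have hne : ¬ (y + y' - j = y + y' - j' ∧ κ - k = κ - k') := by
      rintro ⟨h1, -⟩
      have : j = j' := by linarith
      subst this
      have := abs_nonneg ((y : ℝ) - j)
      linarith
    have ho' : 1 / 8 ≤ |(y' : ℝ) - ((y + y' - j : ℤ) : ℝ)| * |st (y + y' - j') (κ - k')| := by
      rcases dich hε3 hf hf' hne with h1 | h1
      · exact h1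
      · exfalso
        unfold gap at hf
        rw [e1, abs_neg] at hf h1
        have a1 := abs_nonneg ((y : ℝ) - j)
        have a2 := abs_nonneg ((y : ℝ) - j')
        have a3 := abs_nonneg (st (y + y' - j) (κ - k))
        nlinarith
    obtain ⟨t1, t2⟩ := sep hε3 hf hf' ho'
    have ih' := ih hf'
    have hS2 : Ps (!S) ((y' : ℝ) - ((y + y' - j : ℤ) : ℝ)) := by
      rw [e1]
      cases S <;> simp only [Ps, Bool.not_true, Bool.not_false, if_true, Bool.false_eq_true,
        if_false] at * <;> linarith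
    have hh2 : Ps (!h) (st (y + y' - j') (κ - k')) := by
      rw [st_flip] at t2 ⊢
      rw [st_flip] at t2
      generalize st (y + y') κ = Q at t2 ⊢
      have b1 := le_abs_self (Q - st j k)
      have b2 := neg_abs_le (Q - st j k)
      have b3 := le_abs_self (st j k)
      have b4 := neg_abs_le (st j k)
      have b5 := abs_nonneg (Q - st j k)
      have b6 := abs_nonneg (st j k)
      cases h
      · simp only [Ps, Bool.not_false, if_true, Bool.false_eq_true, if_false] at *
        rw [abs_of_neg hh] at s2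
        by_contra hcon
        push Not at hcon
        rw [abs_of_nonpos hcon] at t2
        linarith
      · simp only [Ps, Bool.not_true, if_true, Bool.false_eq_true, if_false] at *
        rw [abs_of_pos hh] at s2
        by_contra hcon
        push Not at hcon
        rw [abs_of_nonneg hcon] at t2
        linarith
    have := Ch.cons (y + y' - j) (κ - k) (!S) (y + y' - j') (κ - k') (!S') (!h) v hf hS2 ho' hh2 ih'
    have e2 : eqn (!S) (!h) = eqn S h := by cases S <;> cases h <;> rfl
    have e3 : eqn (!h) (!S') = eqn h S' := by cases h <;> cases S' <;> rfl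
    rwa [e2, e3] at this

lemma chain_keep {ε ε' : ℝ} (hε0 : 0 ≤ ε) (hε' : 0 < ε') (hε'2 : ε' ≤ 1 / 24)
    (hε : ε ≤ ε' ^ 2 / 24) {y y' κ : ℤ} (F : Flip y y' κ) {j k : ℤ} {S : Bool} {v : ℕ}
    (hc : Ch ε y j k S v) (hk : gap ε' y' j k) (h0 : Bool)
    (hz : Ps h0 (st j k) ∨ (j = 0 ∧ h0 = true)) :
    ∃ S' v', Ch ε' y' j k S' v' ∧ eqn h0 S + v ≤ eqn h0 S' + v' + 1 := by
  have hε2 : ε ≤ ε' / 2 := by nlinarith
  have hε4 : ε ≤ 1 / 24 := by linarith
  have hpos : (1 : ℝ) ≤ y' := by exact_mod_cast F.pos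
  have hlt : (y' : ℝ) < y := by exact_mod_cast F.lt
  induction hc generalizing h0 with
  | nil j k S hg hS =>
    obtain ⟨S', hS'⟩ := exists_wk ((y' : ℝ) - j)
    refine ⟨S', 0, Ch.nil _ _ _ hk hS', ?_⟩
    have : eqn h0 S ≤ 1 := by unfold eqn; split_ifs <;> omega
    omega
  | cons j k S j' k' S' h v hg hS ho hh hc ih =>
    have hg' := hc.gap
    obtain ⟨s1, s2⟩ := sep hε4 hg hg' ho
    have a1 := abs_nonneg ((y : ℝ) - j)
    have a2 := abs_nonneg ((y : ℝ) - j')
    have a3 := abs_nonneg (st j k)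
    have a4 := abs_nonneg (st j' k')
    have hjj : j ≠ j' := by
      rintro rfl
      linarith
    by_cases hkw : gap ε' y' j' k'
    · obtain ⟨T, w, hT, hw⟩ := ih hkw h (Or.inl hh)
      have ho' : 1 / 8 ≤ |(y' : ℝ) - j| * |st j' k'| := by
        rcases dich hε'2 hk hkw (fun h => hjj h.1) with h1 | h1
        · exact h1
        · exfalso
          unfold gap at hkw
          have b1 := abs_nonneg ((y' : ℝ) - j')
          nlinarith
      obtain ⟨t1, t2⟩ := sep hε'2 hk hkw ho'
      have hS2 : Ps S ((y' : ℝ) - j) := by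
        have b1 := le_abs_self ((y : ℝ) - j')
        have b2 := neg_abs_le ((y : ℝ) - j')
        have b3 := le_abs_self ((y' : ℝ) - j')
        have b4 := neg_abs_le ((y' : ℝ) - j')
        cases S
        · simp only [Ps, Bool.false_eq_true, if_false] at *
          rw [abs_of_neg hS] at s1
          by_contra hcon
          push Not at hcon
          rw [abs_of_nonneg hcon] at t1
          linarith
        · simp only [Ps, if_true] at *
          rw [abs_of_pos hS] at s1
          by_contra hcon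
          push Not at hcon
          rw [abs_of_nonpos hcon] at t1
          linarith
      refine ⟨S, w + eqn S h + eqn h T, Ch.cons _ _ _ _ _ _ _ _ hk hS2 ho' hh hT, ?_⟩
      omega
    · have hfw : gap ε' y' (y + y' - j') (κ - k') := by
        rcases keep_or_flip hε' hε'2 hε F hg' with h1 | h1
        · exact absurd h1 hkw
        · exact h1
      have hA := chain_flip hε0 hε2 hε'2 hc hfw
      have hW := hc.wk
      by_cases heq : j = y + y' - j' ∧ k = κ - k'
      · obtain ⟨e1, e2⟩ := heq
        rw [← e1, ← e2] at hA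
        refine ⟨!S', v, hA, ?_⟩
        -- the only bad case: all four signs agree
        by_cases hbad : h0 = S ∧ S = h ∧ h = S'
        · exfalso
          obtain ⟨b1, b2, b3⟩ := hbad
          subst b1; subst b2; subst b3
          have e1' : (j : ℝ) = y + y' - j' := by exact_mod_cast e1
          cases h0
          · simp only [Ps, Wk, Bool.false_eq_true, if_false] at *
            linarith
          · simp only [Ps, Wk, if_true, and_true] at *
            have hyj : (y' : ℝ) ≤ j := by linarith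
            rcases hz with hz | hz
            · apply F.no1 j k (by exact_mod_cast hyj) (by
                have : (j : ℝ) ≤ y := by linarith
                exact_mod_cast this)
              refine ⟨hz, ?_⟩
              have : st j k = st (y + y') κ - st j' k' := by rw [← st_flip, ← e1, ← e2]
              linarith
            · rw [hz] at hyj
              push_cast at hyj
              linarith
        · revert hbad
          cases h0 <;> cases S <;> cases h <;> cases S' <;> simp [eqn] <;> omega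
      · have ho' : 1 / 8 ≤ |(y' : ℝ) - j| * |st (y + y' - j') (κ - k')| := by
          rcases dich hε'2 hk hfw heq with h1 | h1
          · exact h1
          · exfalso
            have e1 : (y' : ℝ) - ((y + y' - j' : ℤ) : ℝ) = -((y : ℝ) - j') := by push_cast; ring
            rw [e1, abs_neg] at h1
            unfold gap at hg'
            nlinarith
        have hne1 : (y' : ℝ) - j ≠ 0 := by
          intro h1; rw [h1] at ho'; simp at ho'; linarith
        have hne2 : st (y + y' - j') (κ - k') ≠ 0 := by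
          intro h1; rw [h1] at ho'; simp at ho'; linarith
        obtain ⟨T, hT⟩ := exists_ps hne1
        obtain ⟨g, hgg⟩ := exists_ps hne2
        refine ⟨T, v + eqn T g + eqn g (!S'), Ch.cons _ _ _ _ _ _ _ _ hk hT ho' hgg hA, ?_⟩
        by_cases hbad : h0 = S ∧ S = h ∧ h = S' ∧ T = !S ∧ g = S
        · exfalso
          obtain ⟨b1, b2, b3, b4, b5⟩ := hbad
          subst b1; subst b2; subst b3; subst b4; subst b5
          rw [st_flip] at hgg
          have c1 := le_abs_self (st j k)
          cases g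
          · simp only [Ps, Bool.not_false, if_true, Bool.false_eq_true, if_false] at *
            linarith
          · simp only [Ps, Bool.not_true, if_true, Bool.false_eq_true, if_false, and_true] at *
            have hyj : (y' : ℝ) ≤ j := by linarith
            rcases hz with hz | hz
            · apply F.no1 j k (by exact_mod_cast hyj) (by
                have : (j : ℝ) ≤ y := by linarith
                exact_mod_cast this)
              refine ⟨hz, ?_⟩
              rw [abs_of_pos hh] at s2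
              linarith
            · rw [hz] at hyj
              push_cast at hyj
              linarith
        · revert hbad
          cases h0 <;> cases S <;> cases h <;> cases S' <;> cases T <;> cases g <;>
            simp [eqn] <;> omega

/-- the tolerances -/
noncomputable def eps : ℕ → ℝ
  | 0 => 1 / 24
  | n + 1 => eps n ^ 2 / 24

lemma eps_pos (n : ℕ) : 0 < eps n := by
  induction n with
  | zero => norm_num [eps]
  | succ n ih => simp only [eps]; positivity

lemma eps_le (n : ℕ) : eps n ≤ 1 / 24 := by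
  induction n with
  | zero => norm_num [eps]
  | succ n ih =>
    have := eps_pos n
    simp only [eps]
    nlinarith

/-- `y` can be brought to `1` by `n` palindromic steps -/
inductive Reach : ℕ → ℤ → Prop
  | zero : Reach 0 1
  | succ (n : ℕ) (y y' κ : ℤ) (F : Flip y y' κ) (h : Reach n y') : Reach (n + 1) y

theorem reach_bound {n : ℕ} {y : ℤ} (h : Reach n y) :
    ∀ v, Ch (eps n) y 0 0 true v → v ≤ n := by
  induction h with
  | zero =>
    intro v hv
    generalize hj : (0 : ℤ) = j at hv
    cases hv with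
    | nil => exact le_refl 0
    | cons j k S j' k' S' h v hg hS ho hh hc =>
      exfalso
      have h1 := hc.gap
      unfold gap at h1
      have h2 := eps_le 0
      subst hj
      have h3 := abs_nonneg (((1 : ℤ) : ℝ) - j')
      have h4 := abs_nonneg (st j' k')
      simp only [Int.cast_one, Int.cast_zero, sub_zero, abs_one, one_mul] at ho h1 h3
      nlinarith
  | succ n y y' κ F hr ih =>
    intro v hv
    have hk : gap (eps n) y' 0 0 := by
      unfold gap st
      simp
      exact (eps_pos n).le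
    obtain ⟨S', v', h1, h2⟩ := chain_keep (eps_pos (n + 1)).le (eps_pos n) (eps_le n)
      (by simp only [eps]; exact le_refl _) F hv hk true (Or.inr ⟨rfl, rfl⟩)
    have hS' : S' = true := by
      have h3 := h1.wk
      have h4 : (1 : ℝ) ≤ y' := by exact_mod_cast F.pos
      cases S'
      · simp only [Wk, Bool.false_eq_true, if_false, Int.cast_zero] at h3
        linarith
      · rfl
    subst hS'
    have := ih v' h1
    omega

end Pool.Agent.H308R2.FibPal
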