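import Mathlib
set_option autoImplicit false

namespace Pool.Agent.H308R2.FibPal

/-- The morphism `a ↦ ab`, `b ↦ a` on letters (`true` stands for `a`, `false` for `b`). -/
def fibMorphism : Bool → List Bool
  | true => [true, false]
  | false => [true]

/-- The initial block `u₁ u₂ ⋯ uₙ` of the infinite word `u = u₁ u₂ u₃ ⋯` (`u 0` plays no role). -/
def initialBlock {A : Type} (u : ℕ → A) (n : ℕ) : List A :=
  (List.range n).map (fun i => u (i + 1))

/-- `u = u₁ u₂ u₃ ⋯` is a fixed point of the morphism: the image of every initial block of `u` is
an initial block of `u`. -/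
def IsFibonacciWord (u : ℕ → Bool) : Prop :=
  ∀ n : ℕ, (initialBlock u n).flatMap fibMorphism =
    initialBlock u ((initialBlock u n).flatMap fibMorphism).length

/-- `PPL_u(n)`: the least `k` such that `u₁ ⋯ uₙ` is a product of `k` nonempty palindromes. -/
noncomputable def PPL {A : Type} (u : ℕ → A) (n : ℕ) : ℕ :=
  sInf {k | ∃ L : List (List A), L.length = k ∧ (∀ p ∈ L, p ≠ [] ∧ p.reverse = p) ∧
    L.flatten = initialBlock u n}

/-- The value of a word of binary digits, most significant digit first, in the Fibonacci
numeration system: the digit followed by `k` digits has weight `fib (k + 2)`, so that the weights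
are, from the right, `1, 2, 3, 5, 8, …`. -/
def fibValue : List Bool → ℕ
  | [] => 0
  | d :: w => (if d then Nat.fib (w.length + 2) else 0) + fibValue w

/-- `w` is the Zeckendorf (greedy Fibonacci) representation of the number `fibValue w`: no leading
zero and no two adjacent ones (the empty word represents `0`). -/
def IsZeckendorf (w : List Bool) : Prop :=
  w.head? ≠ some false ∧ w.IsChain (fun x y => ¬ (x = true ∧ y = true))

/-- The integer sequence `f` is Fibonacci-regular over the commutative ring `K`: there are `r ≥ 1`,
a row vector, a column vector and two `r × r` matrices `M 0`, `M 1` with entries in `K` such that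
`f n = row * M w₁ * ⋯ * M wₛ * col` whenever `w₁ ⋯ wₛ` is the Zeckendorf representation of `n`.
(`K = ℤ` is the notion of the problem.) -/
def IsFibonacciRegular (K : Type) [CommRing K] (f : ℕ → ℤ) : Prop :=
  ∃ (r : ℕ) (_ : 1 ≤ r) (row col : Fin r → K) (M : Bool → Matrix (Fin r) (Fin r) K),
    ∀ w : List Bool, IsZeckendorf w →
      (f (fibValue w) : K) = dotProduct row (Matrix.mulVec ((w.map M).prod) col)

end Pool.Agent.H308R2.FibPal
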