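import Mathlib
set_option autoImplicit false

namespace Pool.Agent.H308R2.FibPal

open Real

/-- the conjugate golden ratio -/
noncomputable def ps : ℝ := goldenConj

lemma ps_sq : ps ^ 2 = ps + 1 := goldenConj_sq

lemma ps_irr : Irrational ps := goldenConj_irrational

lemma sqrt5_eq : √5 = 1 - 2 * ps := by
  have : ps = (1 - √5) / 2 := rfl
  linarith

lemma ps_lt : ps < -(3 / 5) := by
  have h : (11 / 5 : ℝ) < √5 := by
    rw [Real.lt_sqrt (by norm_num)]; norm_num
  rw [sqrt5_eq] at h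
  linarith

lemma lt_ps : -(5 / 8) < ps := by
  have h : √5 < 9 / 4 := by
    rw [Real.sqrt_lt' (by norm_num)]; norm_num
  rw [sqrt5_eq] at h
  linarith

/-- the star coordinate of the lattice point `(j, k)` -/
noncomputable def st (j k : ℤ) : ℝ := k + ps * j

lemma st_fib (n : ℕ) : st (Nat.fib (n + 1)) (Nat.fib n) = ps ^ (n + 1) := by
  unfold st
  have : ps * Nat.fib (n + 1) + Nat.fib n = ps ^ (n + 1) := goldenConj_mul_fib_succ_add_fib n
  push_cast
  linarith

lemma st_add (j k j' k' : ℤ) : st (j + j') (k + k') = st j k + st j' k' := by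
  unfold st; push_cast; ring

lemma st_sub (j k j' k' : ℤ) : st (j - j') (k - k') = st j k - st j' k' := by
  unfold st; push_cast; ring

lemma st_mul_conj (j k : ℤ) :
    st j k * (st j k + (1 - 2 * ps) * j) = ((k ^ 2 + j * k - j ^ 2 : ℤ) : ℝ) := by
  have h := ps_sq
  unfold st
  push_cast
  linear_combination (-(j : ℝ) ^ 2) * h

lemma st_ne_zero {j k : ℤ} (hj : j ≠ 0) : st j k ≠ 0 := by
  intro h
  unfold st at h
  apply ps_irr
  refine ⟨-(k / j : ℚ), ?_⟩
  have hj' : (j : ℝ) ≠ 0 := by exact_mod_cast hj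
  push_cast
  field_simp
  linarith

lemma norm_ne_zero {j k : ℤ} (hj : j ≠ 0) : (k ^ 2 + j * k - j ^ 2 : ℤ) ≠ 0 := by
  intro h
  have h1 := st_mul_conj j k
  rw [h, Int.cast_zero] at h1
  have h2 : st j k + (1 - 2 * ps) * j = 0 := by
    rcases mul_eq_zero.mp h1 with h3 | h3
    · exact absurd h3 (st_ne_zero hj)
    · exact h3
  unfold st at h2
  apply ps_irr
  refine ⟨((k + j) / j : ℚ), ?_⟩
  have hj' : (j : ℝ) ≠ 0 := by exact_mod_cast hj
  push_cast
  field_simp
  linarith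

/-- the lattice has no short vectors -/
lemma norm_bound {j : ℤ} (k : ℤ) (hj : j ≠ 0) : 1 / 3 ≤ |st j k| * |(j : ℝ)| := by
  by_contra hcon
  push Not at hcon
  have h1 : (1 : ℝ) ≤ |(j : ℝ)| := by
    have : (1 : ℤ) ≤ |j| := Int.one_le_abs hj
    exact_mod_cast this
  have h2 : (1 : ℝ) ≤ |st j k * (st j k + (1 - 2 * ps) * j)| := by
    rw [st_mul_conj]
    have : (1 : ℤ) ≤ |k ^ 2 + j * k - j ^ 2| := Int.one_le_abs (norm_ne_zero hj)
    exact_mod_cast this
  rw [abs_mul] at h2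
  have hc0 : 0 ≤ 1 - 2 * ps := by linarith [ps_lt]
  have hc1 : 1 - 2 * ps ≤ 9 / 4 := by linarith [lt_ps]
  have h3 : |st j k + (1 - 2 * ps) * j| ≤ |st j k| + (9 / 4) * |(j : ℝ)| := by
    refine (abs_add_le _ _).trans ?_
    rw [abs_mul, abs_of_nonneg hc0]
    have := mul_le_mul_of_nonneg_right hc1 (abs_nonneg (j : ℝ))
    linarith
  have h6 := abs_nonneg (st j k)
  have h4 : |st j k| < 1 / 3 := by
    have := mul_le_mul_of_nonneg_left h1 h6
    linarith
  have h7 : |st j k| * |st j k + (1 - 2 * ps) * j| ≤ |st j k| * (|st j k| + (9 / 4) * |(j : ℝ)|) :=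
    mul_le_mul_of_nonneg_left h3 h6
  have h8 : |st j k| * |st j k| ≤ |st j k| * (1 / 3) := mul_le_mul_of_nonneg_left h4.le h6
  nlinarith

/-- error of the Fibonacci approximation. -/
lemma psi_approx (n : ℕ) : |ps * Nat.fib (n + 1) + Nat.fib n| * Nat.fib (n + 1) ≤ 1 := by
  have e : ps * Nat.fib (n + 1) + Nat.fib n = ps ^ (n + 1) := goldenConj_mul_fib_succ_add_fib n
  rw [e]
  have h1 : |ps ^ (n + 1)| * goldenRatio ^ (n + 1) = 1 := by
    rw [abs_pow, ← mul_pow]
    have : |ps| * goldenRatio = 1 := by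
      rw [abs_of_neg (show ps < 0 by linarith [ps_lt])]
      have : ps * goldenRatio = -1 := goldenConj_mul_goldenRatio
      linarith
    rw [this, one_pow]
  have h2 : (Nat.fib (n + 1) : ℝ) ≤ goldenRatio ^ (n + 1) := by
    have h : (Nat.fib (n + 1 + 1) : ℝ) - ps * Nat.fib (n + 1) = goldenRatio ^ (n + 1) :=
      fib_succ_sub_goldenConj_mul_fib (n + 1)
    have h3 : (0 : ℝ) ≤ -ps * Nat.fib (n + 1) :=
      mul_nonneg (by linarith [ps_lt]) (Nat.cast_nonneg _)
    have h4 : (Nat.fib (n + 1) : ℝ) ≤ Nat.fib (n + 1 + 1) := by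
      exact_mod_cast Nat.fib_le_fib_succ
    linarith
  calc |ps ^ (n + 1)| * (Nat.fib (n + 1) : ℝ)
      ≤ |ps ^ (n + 1)| * goldenRatio ^ (n + 1) :=
        mul_le_mul_of_nonneg_left h2 (abs_nonneg _)
    _ = 1 := h1

/-- Every window of `fib (n+1)` consecutive integers contains a lattice point with star in
`(A, A + 3 / fib (n+1))`. -/
lemma window (n : ℕ) (i0 : ℤ) (A : ℝ) :
    ∃ i k : ℤ, i0 ≤ i ∧ i < i0 + Nat.fib (n + 1) ∧ A < st i k ∧
      st i k < A + 3 / Nat.fib (n + 1) := by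
  obtain ⟨F, hF⟩ : ∃ F : ℤ, F = Nat.fib (n + 1) := ⟨_, rfl⟩
  obtain ⟨G, hG⟩ : ∃ G : ℤ, G = Nat.fib n := ⟨_, rfl⟩
  have hFpos : 0 < F := by rw [hF]; exact_mod_cast Nat.fib_pos.mpr (Nat.succ_pos n)
  have hcop : IsCoprime G F := by
    rw [hF, hG]; exact Nat.isCoprime_iff_coprime.mpr (Nat.fib_coprime_fib_succ n)
  have hFR : (0 : ℝ) < F := by exact_mod_cast hFpos
  have happ : |ps * F + G| * F ≤ 1 := by
    have := psi_approx n
    rw [hF, hG]
    exact_mod_cast this
  -- choose r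
  obtain ⟨B, hB⟩ : ∃ B : ℝ, B = A - st i0 0 := ⟨_, rfl⟩
  obtain ⟨r, hr⟩ : ∃ r : ℤ, r = ⌊B * F⌋ + 2 := ⟨_, rfl⟩
  have hr1 : B * F + 1 < r := by
    have := Int.lt_floor_add_one (B * F)
    rw [hr]; push_cast; linarith
  have hr2 : (r : ℝ) ≤ B * F + 2 := by
    have := Int.floor_le (B * F)
    rw [hr]; push_cast; linarith
  obtain ⟨u, v, huv⟩ := hcop
  obtain ⟨l, hl⟩ : ∃ l : ℤ, l = (-(u * r)) % F := ⟨_, rfl⟩
  obtain ⟨c, hc⟩ : ∃ c : ℤ, c = (-(u * r)) / F := ⟨_, rfl⟩
  have hl0 : 0 ≤ l := by rw [hl]; exact Int.emod_nonneg _ hFpos.ne'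
  have hl1 : l < F := by rw [hl]; exact Int.emod_lt_of_pos _ hFpos
  have hlc : F * c + l = -(u * r) := by rw [hl, hc]; exact Int.mul_ediv_add_emod _ _
  obtain ⟨k, hk⟩ : ∃ k : ℤ, k = v * r - c * G := ⟨_, rfl⟩
  have hkey : k * F - l * G = r := by
    have : l = -(u * r) - F * c := by linarith
    rw [this, hk]
    linear_combination r * huv
  have e1 : st (i0 + l) k = st i0 0 + (k + ps * l) := by
    unfold st; push_cast; ring
  have e2 : (k + ps * l) * F = r + l * (ps * F + G) := by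
    have : ((k * F - l * G : ℤ) : ℝ) = r := by rw [hkey]
    push_cast at this
    linear_combination this
  have hl0' : (0 : ℝ) ≤ l := by exact_mod_cast hl0
  have hl1' : (l : ℝ) ≤ F - 1 := by
    have : l ≤ F - 1 := by linarith
    exact_mod_cast this
  have e3 : |(l : ℝ) * (ps * F + G)| < 1 := by
    rw [abs_mul, abs_of_nonneg hl0']
    rcases eq_or_lt_of_le (abs_nonneg (ps * F + G)) with h0 | h0
    · rw [← h0]; norm_num
    · calc (l : ℝ) * |ps * F + G| ≤ (F - 1) * |ps * F + G| :=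
            mul_le_mul_of_nonneg_right hl1' h0.le
        _ < F * |ps * F + G| := by linarith
        _ = |ps * F + G| * F := mul_comm _ _
        _ ≤ 1 := happ
  have e4 := abs_lt.mp e3
  have e6 : (Nat.fib (n + 1) : ℝ) = F := by rw [hF]; push_cast; rfl
  refine ⟨i0 + l, k, by linarith, by rw [← hF]; linarith, ?_, ?_⟩
  · have : B < k + ps * l := by
      by_contra hcon
      push Not at hcon
      have := mul_le_mul_of_nonneg_right hcon hFR.le
      linarith
    rw [e1]; linarith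
  · have hstrict : (k + ps * l) * F < B * F + 3 := by linarith
    have e5 : (k + ps * l) < B + 3 / F := by
      have e7 : (B + 3 / F) * F = B * F + 3 := by field_simp
      by_contra hcon
      push Not at hcon
      have := mul_le_mul_of_nonneg_right hcon hFR.le
      linarith
    rw [e1, e6]
    linarith

/-- If the stars of the window `[x, y]` avoid the open interval between `0` and `Q`,
then `|Q| * (y - x) ≤ 6`. -/
lemma window_bound {x y : ℤ} (hxy : x ≤ y) {Q : ℝ}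
    (h1 : ∀ i k : ℤ, x ≤ i → i ≤ y → ¬ (0 < st i k ∧ st i k < Q))
    (h2 : ∀ i k : ℤ, x ≤ i → i ≤ y → ¬ (Q < st i k ∧ st i k < 0)) :
    |Q| * ((y : ℝ) - x) ≤ 6 := by
  -- choose the largest Fibonacci number `≤ y - x + 1`
  obtain ⟨L, hL⟩ : ∃ L : ℕ, (L : ℤ) = y - x := ⟨(y - x).toNat, Int.toNat_of_nonneg (by linarith)⟩
  have hLR : (L : ℝ) = y - x := by exact_mod_cast hL
  have hex : ∃ n : ℕ, Nat.fib (n + 1) ≤ L + 1 ∧ L + 1 < Nat.fib (n + 2) := by
    have hP : ∃ n : ℕ, L + 1 < Nat.fib (n + 2) := by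
      refine ⟨L + 5, ?_⟩
      have := Nat.le_fib_self (n := L + 5 + 2) (by omega)
      omega
    refine ⟨Nat.find hP, ?_, Nat.find_spec hP⟩
    rcases Nat.eq_zero_or_pos (Nat.find hP) with h | h
    · rw [h]; simp
    · have := Nat.find_min hP (m := Nat.find hP - 1) (by omega)
      push Not at this
      rwa [show Nat.find hP - 1 + 2 = Nat.find hP + 1 by omega] at this
  obtain ⟨n, hn1, hn2⟩ := hex
  have hn3 : Nat.fib (n + 2) ≤ 2 * Nat.fib (n + 1) := by
    rw [Nat.fib_add_two]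
    have := Nat.fib_le_fib_succ (n := n)
    omega
  have hFpos : (0 : ℝ) < Nat.fib (n + 1) := by exact_mod_cast Nat.fib_pos.mpr (Nat.succ_pos n)
  have hF2 : (L : ℝ) + 1 < 2 * Nat.fib (n + 1) := by
    have : L + 1 < 2 * Nat.fib (n + 1) := by omega
    exact_mod_cast this
  have hwin : (Nat.fib (n + 1) : ℤ) ≤ L + 1 := by exact_mod_cast hn1
  have hQ : |Q| ≤ 3 / Nat.fib (n + 1) := by
    rw [abs_le]
    constructor
    · by_contra hcon
      push Not at hcon
      obtain ⟨i, k, hi1, hi2, hi3, hi4⟩ := window n x (-(3 / Nat.fib (n + 1)))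
      exact h2 i k hi1 (by omega) ⟨by linarith, by linarith⟩
    · by_contra hcon
      push Not at hcon
      obtain ⟨i, k, hi1, hi2, hi3, hi4⟩ := window n x 0
      exact h1 i k hi1 (by omega) ⟨hi3, by linarith⟩
  rw [← hLR]
  have hL0 : (0 : ℝ) ≤ L := Nat.cast_nonneg _
  calc |Q| * (L : ℝ) ≤ 3 / Nat.fib (n + 1) * L := mul_le_mul_of_nonneg_right hQ hL0
    _ ≤ 3 / Nat.fib (n + 1) * (2 * Nat.fib (n + 1)) :=
        mul_le_mul_of_nonneg_left (by linarith) (by positivity)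
    _ = 6 := by field_simp; norm_num

end Pool.Agent.H308R2.FibPal
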