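import Mathlib
set_option autoImplicit false

namespace Pool.Agent.H308R2.FibPal
open Matrix

section LA
variable {K : Type} [Field K] {r : ℕ}

/-- the recurrence given by the characteristic polynomial -/
lemma rec_charpoly (X : Matrix (Fin r) (Fin r) K) (l c : Fin r → K) (a : ℕ) :
    ∑ k ∈ Finset.range (r + 1), X.charpoly.coeff k * (l ⬝ᵥ (X ^ (a + k) *ᵥ c)) = 0 := by
  have h := Matrix.aeval_self_charpoly X
  rw [Polynomial.aeval_eq_sum_range, Matrix.charpoly_natDegree_eq_dim, Fintype.card_fin] at h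
  have h2 : l ⬝ᵥ ((X ^ a * ∑ k ∈ Finset.range (r + 1), X.charpoly.coeff k • X ^ k) *ᵥ c) = 0 := by
    rw [h]; simp
  rw [Finset.mul_sum, Matrix.sum_mulVec, dotProduct_sum] at h2
  rw [← h2]
  apply Finset.sum_congr rfl
  intro k _
  rw [mul_smul_comm, ← pow_add, Matrix.smul_mulVec, dotProduct_smul, smul_eq_mul]

lemma zero_forward (X : Matrix (Fin r) (Fin r) K) (l c : Fin r → K) (i : ℕ)
    (h : ∀ k < r, l ⬝ᵥ (X ^ (i + k) *ᵥ c) = 0) (n : ℕ) : l ⬝ᵥ (X ^ (i + n) *ᵥ c) = 0 := by
  induction n using Nat.strong_induction_on with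
  | _ n ih =>
    rcases lt_or_ge n r with hn | hn
    · exact h n hn
    · have hrec := rec_charpoly X l c (i + (n - r))
      rw [Finset.sum_range_succ, Finset.sum_eq_zero, zero_add] at hrec
      · have hm : X.charpoly.coeff r = 1 := by
          have := X.charpoly_monic
          rw [Polynomial.Monic, Polynomial.leadingCoeff, Matrix.charpoly_natDegree_eq_dim,
            Fintype.card_fin] at this
          exact this
        rw [hm, one_mul, show i + (n - r) + r = i + n by omega] at hrec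
        exact hrec
      · intro k hk
        rw [Finset.mem_range] at hk
        rw [show i + (n - r) + k = i + (n - r + k) by omega, ih (n - r + k) (by omega), mul_zero]

lemma zero_backward (X : Matrix (Fin r) (Fin r) K) (l c : Fin r → K) (i : ℕ)
    (h : ∀ a, i ≤ a → l ⬝ᵥ (X ^ a *ᵥ c) = 0) (a : ℕ) (ha : X.charpoly.natTrailingDegree ≤ a) :
    l ⬝ᵥ (X ^ a *ᵥ c) = 0 := by
  obtain ⟨n, hn⟩ : ∃ n, n = i - a := ⟨_, rfl⟩
  induction n using Nat.strong_induction_on generalizing a with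
  | _ n ih =>
    rcases Nat.eq_zero_or_pos n with h0 | h0
    · exact h a (by omega)
    · have hall : ∀ b, a < b → l ⬝ᵥ (X ^ b *ᵥ c) = 0 := fun b hb =>
        ih (i - b) (by omega) b (by omega) rfl
      have hrec := rec_charpoly X l c (a - X.charpoly.natTrailingDegree)
      have hdeg : X.charpoly.natTrailingDegree ≤ r := by
        have := Polynomial.natTrailingDegree_le_natDegree X.charpoly
        rwa [Matrix.charpoly_natDegree_eq_dim, Fintype.card_fin] at this
      rw [Finset.sum_eq_single X.charpoly.natTrailingDegree] at hrec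
      · rw [Nat.sub_add_cancel ha] at hrec
        rcases mul_eq_zero.mp hrec with h1 | h1
        · exfalso
          have h2 : X.charpoly.trailingCoeff ≠ 0 := by
            rw [Ne, Polynomial.trailingCoeff_eq_zero]
            exact X.charpoly_monic.ne_zero
          exact h2 h1
        · exact h1
      · intro k _ hk
        rcases lt_or_gt_of_ne hk with hk | hk
        · rw [Polynomial.coeff_eq_zero_of_lt_natTrailingDegree hk, zero_mul]
        · rw [hall _ (by omega), mul_zero]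
      · intro hk
        exfalso
        apply hk
        rw [Finset.mem_range]
        omega

/-- a linear recurrent sequence with values in `{0, …, B}` is periodic from `s` on, with a period
that only depends on `B` and `r` -/
lemma periodic (X : Matrix (Fin r) (Fin r) K) (l c : Fin r → K) (B s : ℕ)
    (hs : X.charpoly.natTrailingDegree ≤ s)
    (hB : ∀ a, s ≤ a → ∃ b : ℕ, b ≤ B ∧ l ⬝ᵥ (X ^ a *ᵥ c) = (b : K)) (a : ℕ) (ha : s ≤ a) :
    l ⬝ᵥ (X ^ (a + 2 * ((B + 1) ^ r).factorial) *ᵥ c) = l ⬝ᵥ (X ^ a *ᵥ c) := by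
  choose! b hb1 hb2 using hB
  have hcard : Fintype.card (Fin r → Fin (B + 1)) < Fintype.card (Fin ((B + 1) ^ r + 1)) := by
    simp
  obtain ⟨i, j, hij, he⟩ := Fintype.exists_ne_map_eq_of_card_lt
    (fun (i : Fin ((B + 1) ^ r + 1)) (k : Fin r) => (Fin.ofNat (B + 1) (b (s + i + k)))) hcard
  wlog hlt : i < j generalizing i j
  · exact this j i hij.symm he.symm (lt_of_le_of_ne (not_lt.mp hlt) hij.symm)
  have hlt' : (i : ℕ) < j := hlt
  obtain ⟨p, hp⟩ : ∃ p, p = (j : ℕ) - i := ⟨_, rfl⟩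
  have hE : ∀ n, l ⬝ᵥ (X ^ n *ᵥ ((X ^ p - 1) *ᵥ c)) =
      l ⬝ᵥ (X ^ (n + p) *ᵥ c) - l ⬝ᵥ (X ^ n *ᵥ c) := by
    intro n
    rw [Matrix.mulVec_mulVec, mul_sub, ← pow_add, mul_one, Matrix.sub_mulVec, dotProduct_sub]
  have h0 : ∀ k < r, l ⬝ᵥ (X ^ (s + i + k) *ᵥ ((X ^ p - 1) *ᵥ c)) = 0 := by
    intro k hk
    rw [hE, show s + (i : ℕ) + k + p = s + j + k by omega, hb2 _ (by omega), hb2 _ (by omega)]
    have h1 := congrFun he ⟨k, hk⟩
    have h2 := congrArg Fin.val h1
    simp only [Fin.ofNat] at h2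
    rw [Nat.mod_eq_of_lt (Nat.lt_succ_of_le (hb1 _ (by omega))),
      Nat.mod_eq_of_lt (Nat.lt_succ_of_le (hb1 _ (by omega)))] at h2
    rw [h2, sub_self]
  have h1 : ∀ a, s + i ≤ a → l ⬝ᵥ (X ^ a *ᵥ ((X ^ p - 1) *ᵥ c)) = 0 := by
    intro a ha
    obtain ⟨n, rfl⟩ := Nat.exists_eq_add_of_le ha
    exact zero_forward X l _ (s + i) h0 n
  have h2 : ∀ a, s ≤ a → l ⬝ᵥ (X ^ (a + p) *ᵥ c) = l ⬝ᵥ (X ^ a *ᵥ c) := by
    intro a ha
    have := zero_backward X l _ (s + i) h1 a (by omega)
    rw [hE] at this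
    exact sub_eq_zero.mp this
  have h3 : ∀ q a, s ≤ a → l ⬝ᵥ (X ^ (a + p * q) *ᵥ c) = l ⬝ᵥ (X ^ a *ᵥ c) := by
    intro q
    induction q with
    | zero => intro a _; simp
    | succ q ih =>
      intro a ha
      rw [show a + p * (q + 1) = (a + p * q) + p by ring, h2 _ (by omega), ih a ha]
  have hdvd : p ∣ 2 * ((B + 1) ^ r).factorial := by
    apply Dvd.dvd.mul_left
    apply Nat.dvd_factorial (by omega)
    have := j.isLt
    omega
  obtain ⟨q, hq⟩ := hdvd
  rw [hq]
  exact h3 q a ha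

end LA

end Pool.Agent.H308R2.FibPal
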