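import Pool.Agent.H308R2.PPL.Upper
set_option autoImplicit false

namespace Pool.Agent.H308R2.FibPal

/-- all digit indices are even -/
def ParOK : List ℕ → Prop
  | [] => True
  | a :: A => Even (a + W A) ∧ ParOK A

lemma fib_mul_pow (w : ℕ) : (Nat.fib (w + 1) : ℝ) * |ps| ^ (w + 1) ≤ 1 := by
  have h := psi_approx w
  have e := st_fib w
  unfold st at e
  have e2 : ps * (Nat.fib (w + 1) : ℝ) + Nat.fib w = ps ^ (w + 1) := by
    push_cast at e
    linarith
  rw [e2, abs_pow] at h
  linarith

lemma le_fib_mul_pow (w : ℕ) : 1 / 3 ≤ (Nat.fib (w + 1) : ℝ) * |ps| ^ (w + 1) := by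
  have hpos : 0 < Nat.fib (w + 1) := Nat.fib_pos.mpr (Nat.succ_pos _)
  have h := norm_bound (j := (Nat.fib (w + 1) : ℤ)) (Nat.fib w : ℤ) (by omega)
  rw [st_fib, abs_pow] at h
  have : |((Nat.fib (w + 1) : ℤ) : ℝ)| = (Nat.fib (w + 1) : ℝ) := by
    rw [Int.cast_natCast]
    exact abs_of_nonneg (Nat.cast_nonneg _)
  rw [this] at h
  linarith

lemma chain_sparse {ε : ℝ} {D : ℕ} (hD1 : 1 ≤ D) (hD : 4 * |ps| ^ D ≤ ε) :
    ∀ (A : List ℕ), (∀ a ∈ A, D ≤ a) → ParOK A → ∀ (y j k : ℤ), y = j + 1 + val A →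
      0 ≤ st j k → st j k ≤ 2 * |ps| ^ (D + W A + 2) → Ch ε y j k true (2 * A.length) := by
  intro A
  induction A with
  | nil =>
    intro _ _ y j k hy h0 h1
    have hyj : (y : ℝ) - j = 1 := by
      rw [hy]; simp [val]
    have hgap : gap ε y j k := by
      unfold gap
      rw [hyj, abs_one, abs_of_nonneg h0]
      have : |ps| ^ (D + W [] + 2) ≤ |ps| ^ D := pow_anti (by omega)
      linarith
    exact Ch.nil j k true hgap (by rw [hyj]; simp [Wk])
  | cons a A ih =>
    intro hA hp y j k hy h0 h1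
    have ha : D ≤ a := hA a List.mem_cons_self
    have hA' : ∀ b ∈ A, D ≤ b := fun b hb => hA b (List.mem_cons_of_mem _ hb)
    obtain ⟨hp1, hp2⟩ := hp
    have hval := val_lt (A := a :: A) (fun b hb => le_trans hD1 (hA b hb))
    have hyj : (y : ℝ) - j = 1 + val (a :: A) := by
      rw [hy]; push_cast; ring
    have hypos : 0 < (y : ℝ) - j := by
      rw [hyj]; positivity
    have hgap : gap ε y j k := by
      unfold gap
      rw [abs_of_pos hypos, abs_of_nonneg h0, hyj]
      have f1 : (val (a :: A) : ℝ) + 1 ≤ Nat.fib (W (a :: A) + 2) := by exact_mod_cast hval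
      have f2 := fib_mul_pow (W (a :: A) + 1)
      have f3 : |ps| ^ (D + W (a :: A) + 2) = |ps| ^ D * |ps| ^ (W (a :: A) + 2) := by
        rw [← pow_add]; congr 1
      rw [f3] at h1
      rw [show W (a :: A) + 1 + 1 = W (a :: A) + 2 by ring] at f2
      have f4 := pow_pos abs_ps_pos D
      have f5 : (0 : ℝ) ≤ val (a :: A) := Nat.cast_nonneg _
      calc (1 + (val (a :: A) : ℝ) + 1) * st j k
          ≤ (2 * Nat.fib (W (a :: A) + 2)) * (2 * (|ps| ^ D * |ps| ^ (W (a :: A) + 2))) := by
            apply mul_le_mul _ h1 h0 (by positivity)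
            linarith
        _ = 4 * |ps| ^ D * (Nat.fib (W (a :: A) + 2) * |ps| ^ (W (a :: A) + 2)) := by ring
        _ ≤ 4 * |ps| ^ D * 1 := by
            apply mul_le_mul_of_nonneg_left f2
            positivity
        _ ≤ ε := by linarith
    obtain ⟨n, hn⟩ : ∃ n, n = a + W A + 2 := ⟨_, rfl⟩
    have hne : Even n := by
      rw [hn]
      obtain ⟨r, hr⟩ := hp1
      exact ⟨r + 1, by omega⟩
    have hstep : st (j + Nat.fib n) (k + Nat.fib (n - 1)) = st j k + |ps| ^ n := by
      rw [st_add, st_single (by omega), even_pow_pos hne]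
    have hpn := pow_pos abs_ps_pos n
    have hW : W (a :: A) = a + 1 + W A := rfl
    have hsmall : 2 * |ps| ^ (D + W (a :: A) + 2) ≤ |ps| ^ n := by
      have h5 : |ps| ^ (D + W (a :: A) + 2) ≤ |ps| ^ (n + 2) := pow_anti (by rw [hW]; omega)
      have h6 : |ps| ^ (n + 2) ≤ |ps| ^ n * (1 / 2) := by
        rw [pow_add]
        apply mul_le_mul_of_nonneg_left _ hpn.le
        have h5 : |ps| ^ 2 ≤ (5 / 8) ^ 2 := pow_le_pow_left₀ (abs_nonneg _) abs_ps_lt.le 2
        norm_num at h5 ⊢
        linarith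
      linarith
    have hc := ih hA' hp2 y (j + Nat.fib n) (k + Nat.fib (n - 1))
      (by rw [hy, hn]; simp only [val]; push_cast; ring) (by rw [hstep]; positivity)
      (by
        rw [hstep]
        have : |ps| ^ n ≤ |ps| ^ (D + W A + 2) := pow_anti (by omega)
        linarith)
    have := Ch.cons (ε := ε) (y := y) j k true _ _ true true _ hgap (by simpa [Ps] using hypos)
      (by
        rw [hstep, abs_of_pos hypos, abs_of_pos (by positivity), hyj]
        have f1 := le_fib_mul_pow (n - 1)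
        rw [show n - 1 + 1 = n by omega] at f1
        have f2 : (Nat.fib n : ℝ) ≤ 1 + val (a :: A) := by
          have : Nat.fib n ≤ 1 + val (a :: A) := by
            rw [hn]; simp only [val]; omega
          exact_mod_cast this
        have f3 : (Nat.fib n : ℝ) * |ps| ^ n ≤ (1 + val (a :: A)) * (st j k + |ps| ^ n) := by
          apply mul_le_mul f2 (by linarith) hpn.le (by positivity)
        linarith)
      (by rw [hstep]; simp only [Ps, if_true]; positivity) hc
    simpa [eqn, mul_add, Nat.add_assoc] using this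

lemma eps_anti : Antitone eps := by
  apply antitone_nat_of_succ_le
  intro n
  have h1 := eps_pos n
  have h2 := eps_le n
  have h3 : eps (n + 1) ≤ eps n := by
    simp only [eps]
    nlinarith
  exact h3

theorem ppl_lower (m : ℕ) : ∃ D, 1 ≤ D ∧ ∀ A : List ℕ, A.length = m → (∀ a ∈ A, D ≤ a) →
    ParOK A → 2 * m ≤ PPL mw (val A) := by
  have hlim : Filter.Tendsto (fun D : ℕ => 4 * |ps| ^ D) Filter.atTop (nhds (4 * 0)) :=
    (tendsto_pow_atTop_nhds_zero_of_lt_one (abs_nonneg _)
      (by have := abs_ps_lt; linarith)).const_mul 4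
  rw [mul_zero] at hlim
  have hev := hlim.eventually (gt_mem_nhds (eps_pos (2 * m)))
  obtain ⟨D, hD⟩ := (hev.and (Filter.eventually_ge_atTop 1)).exists
  refine ⟨D, hD.2, ?_⟩
  intro A hlen hA hp
  by_contra hcon
  push Not at hcon
  have hr := ppl_reach (val A)
  have hc := chain_sparse (ε := eps (PPL mw (val A))) hD.2
    (le_trans hD.1.le (eps_anti hcon.le)) A hA hp (val A + 1) 0 0 (by ring)
    (by simp [st]) (by simp [st])
  have := reach_bound hr _ hc
  omega

end Pool.Agent.H308R2.FibPal
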