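import Pool.Agent.H308R2.PPL.Lower
import Pool.Agent.H308R2.PPL.LinAlg
set_option autoImplicit false

namespace Pool.Agent.H308R2.FibPal
open Matrix

/-- the word `1 0^{a₁} 1 0^{a₂} ⋯` -/
def word (A : List ℕ) : List Bool := A.flatMap (fun a => true :: List.replicate a false)

lemma word_cons (a : ℕ) (A : List ℕ) :
    word (a :: A) = true :: (List.replicate a false ++ word A) := by
  simp [word]

lemma word_append (A B : List ℕ) : word (A ++ B) = word A ++ word B := by
  simp [word]

lemma word_length (A : List ℕ) : (word A).length = W A := by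
  induction A with
  | nil => simp [word, W]
  | cons a A ih =>
    rw [word_cons, List.length_cons, List.length_append, List.length_replicate, ih]
    simp only [W]
    omega

lemma fibValue_zeros (a : ℕ) (w : List Bool) :
    fibValue (List.replicate a false ++ w) = fibValue w := by
  induction a with
  | zero => simp
  | succ a ih => simp [List.replicate_succ, fibValue, ih]

lemma fibValue_word (A : List ℕ) : fibValue (word A) = val A := by
  induction A with
  | nil => simp [word, val, fibValue]
  | cons a A ih =>
    rw [word_cons]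
    simp only [fibValue, if_true]
    rw [fibValue_zeros, ih, List.length_append, List.length_replicate, word_length]
    simp only [val]

lemma isChain_zeros (a : ℕ) (w : List Bool)
    (hw : w.IsChain (fun x y => ¬ (x = true ∧ y = true))) :
    (List.replicate a false ++ w).IsChain (fun x y => ¬ (x = true ∧ y = true)) := by
  induction a with
  | zero => simpa using hw
  | succ a ih =>
    rw [List.replicate_succ, List.cons_append]
    apply List.IsChain.cons ih
    intro y _ h
    simp at h

lemma isChain_word (A : List ℕ) (hA : ∀ a ∈ A, 1 ≤ a) :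
    (word A).IsChain (fun x y => ¬ (x = true ∧ y = true)) := by
  induction A with
  | nil => simp [word]
  | cons a A ih =>
    have h1 := ih (fun b hb => hA b (List.mem_cons_of_mem _ hb))
    have h2 := hA a List.mem_cons_self
    obtain ⟨b, rfl⟩ : ∃ b, a = b + 1 := ⟨a - 1, by omega⟩
    rw [word_cons]
    apply List.IsChain.cons (isChain_zeros _ _ h1)
    intro y hy
    rw [List.replicate_succ, List.cons_append, List.head?_cons, Option.mem_some] at hy
    subst hy
    simp

lemma isZeckendorf_word (A : List ℕ) (hA : ∀ a ∈ A, 1 ≤ a) : IsZeckendorf (word A) := by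
  refine ⟨?_, isChain_word A hA⟩
  cases A with
  | nil => simp [word]
  | cons a A => rw [word_cons]; simp

section Rep
variable {K : Type} [Field K] [CharZero K] {r : ℕ}

/-- the product of matrices along a word -/
def mprod (M : Bool → Matrix (Fin r) (Fin r) K) (w : List Bool) : Matrix (Fin r) (Fin r) K :=
  (w.map M).prod

omit [CharZero K] in
lemma mprod_append (M : Bool → Matrix (Fin r) (Fin r) K) (v w : List Bool) :
    mprod M (v ++ w) = mprod M v * mprod M w := by
  simp [mprod]

omit [CharZero K] in
lemma mprod_split (M : Bool → Matrix (Fin r) (Fin r) K) (row col : Fin r → K) (L R : List ℕ)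
    (a : ℕ) : row ⬝ᵥ (mprod M (word (L ++ a :: R)) *ᵥ col) =
      (row ᵥ* (mprod M (word L) * M true)) ⬝ᵥ
        ((M false) ^ a *ᵥ (mprod M (word R) *ᵥ col)) := by
  have e : mprod M (word (L ++ a :: R)) =
      (mprod M (word L) * M true) * ((M false) ^ a * mprod M (word R)) := by
    rw [word_append, word_cons, mprod_append]
    have : mprod M (true :: (List.replicate a false ++ word R)) =
        M true * ((M false) ^ a * mprod M (word R)) := by
      simp [mprod]
    rw [this, mul_assoc]
  rw [e, ← Matrix.mulVec_mulVec, ← Matrix.dotProduct_mulVec, Matrix.mulVec_mulVec (M := _ ^ _)]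

/-- the data of a representation of `PPL` -/
structure Rep (M : Bool → Matrix (Fin r) (Fin r) K) (row col : Fin r → K) : Prop where
  eq : ∀ A : List ℕ, (∀ a ∈ A, 1 ≤ a) →
    (PPL mw (val A) : K) = row ⬝ᵥ (mprod M (word A) *ᵥ col)

variable {M : Bool → Matrix (Fin r) (Fin r) K} {row col : Fin r → K}

lemma Rep.shift_one (h : Rep M row col) {s B P : ℕ}
    (hP : P = 2 * ((B + 1) ^ r).factorial) (hs : (M false).charpoly.natTrailingDegree ≤ s)
    (hs3 : 3 ≤ s) (L R : List ℕ) (a : ℕ) (hA : ∀ b ∈ L ++ a :: R, s ≤ b)
    (hlen : 2 * (L ++ a :: R).length ≤ B) :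
    PPL mw (val (L ++ (a + P) :: R)) = PPL mw (val (L ++ a :: R)) := by
  have hmem : ∀ c, s ≤ c → ∀ b ∈ L ++ c :: R, s ≤ b := by
    intro c hc b hb
    rw [List.mem_append, List.mem_cons] at hb
    rcases hb with hb | hb | hb
    · exact hA b (List.mem_append_left _ hb)
    · omega
    · exact hA b (List.mem_append_right _ (List.mem_cons_of_mem _ hb))
  have heq : ∀ c, s ≤ c → (PPL mw (val (L ++ c :: R)) : K) =
      (row ᵥ* (mprod M (word L) * M true)) ⬝ᵥ
        ((M false) ^ c *ᵥ (mprod M (word R) *ᵥ col)) := by
    intro c hc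
    rw [h.eq _ (fun b hb => by have := hmem c hc b hb; omega), mprod_split]
  have ha : s ≤ a := hA a (by simp)
  have hper := periodic (M false) (row ᵥ* (mprod M (word L) * M true))
    (mprod M (word R) *ᵥ col) B s hs (by
      intro c hc
      refine ⟨PPL mw (val (L ++ c :: R)), ?_, (heq c hc).symm⟩
      have h1 := ppl_val_le (A := L ++ c :: R) (fun b hb => by have := hmem c hc b hb; omega)
      have h2 : (L ++ c :: R).length = (L ++ a :: R).length := by simp
      omega) a ha
  rw [← hP, ← heq a ha, ← heq (a + P) (by omega)] at hper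
  exact_mod_cast hper

lemma Rep.shift_all (h : Rep M row col) {s B P : ℕ}
    (hP : P = 2 * ((B + 1) ^ r).factorial) (hs : (M false).charpoly.natTrailingDegree ≤ s)
    (hs3 : 3 ≤ s) : ∀ (R L : List ℕ), (∀ b ∈ L ++ R, s ≤ b) → 2 * (L ++ R).length ≤ B →
    PPL mw (val (L ++ R.map (· + P))) = PPL mw (val (L ++ R)) := by
  intro R
  induction R with
  | nil => intro L _ _; simp
  | cons a R ih =>
    intro L hA hlen
    have h1 := h.shift_one hP hs hs3 L R a hA hlen
    have h2 := ih (L ++ [a + P]) (by
      intro b hb
      rw [List.append_assoc, List.singleton_append, List.mem_append, List.mem_cons] at hb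
      rcases hb with hb | hb | hb
      · exact hA b (List.mem_append_left _ hb)
      · have := hA a (by simp)
        omega
      · exact hA b (List.mem_append_right _ (List.mem_cons_of_mem _ hb))) (by simpa using hlen)
    rw [List.append_assoc, List.singleton_append, List.append_assoc, List.singleton_append] at h2
    rw [List.map_cons, h2, h1]

lemma Rep.shift_iter (h : Rep M row col) {s B P : ℕ}
    (hP : P = 2 * ((B + 1) ^ r).factorial) (hs : (M false).charpoly.natTrailingDegree ≤ s)
    (hs3 : 3 ≤ s) (A : List ℕ) (hA : ∀ b ∈ A, s ≤ b) (hlen : 2 * A.length ≤ B) (t : ℕ) :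
    PPL mw (val (A.map (· + t * P))) = PPL mw (val A) := by
  induction t with
  | zero => simp
  | succ t ih =>
    have h1 := h.shift_all hP hs hs3 (A.map (· + t * P)) [] (by
      intro b hb
      rw [List.nil_append, List.mem_map] at hb
      obtain ⟨c, hc, rfl⟩ := hb
      have := hA c hc
      omega) (by simpa using hlen)
    rw [List.nil_append, List.nil_append, List.map_map, ih] at h1
    rw [← h1]
    congr 2
    apply List.map_congr_left
    intro a _
    simp only [Function.comp]
    ring

end Rep

/-! ### the family of words -/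

lemma fam_W (k a b : ℕ) : W (List.replicate k a ++ [b]) = k * (a + 1) + b + 1 := by
  induction k with
  | zero => simp [W]
  | succ k ih =>
    rw [List.replicate_succ, List.cons_append]
    simp only [W]
    rw [ih]
    ring

lemma fam_par (k a b : ℕ) (ha : Odd a) (hb : Even b) : ParOK (List.replicate k a ++ [b]) := by
  induction k with
  | zero =>
    rw [List.replicate_zero, List.nil_append]
    exact ⟨by simpa [W] using hb, trivial⟩
  | succ k ih =>
    rw [List.replicate_succ, List.cons_append]
    refine ⟨?_, ih⟩
    rw [fam_W]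
    obtain ⟨u, hu⟩ := ha
    obtain ⟨v, hv⟩ := hb
    subst hu
    subst hv
    exact ⟨u + k * (u + 1) + v + 1, by ring⟩

/-- the increasing list of the indices of the top digits -/
def lst (d : ℕ) : ℕ → ℕ → List ℕ
  | 0, _ => []
  | k + 1, c => (c + d) :: lst d k (c + d)

lemma lst_length (d : ℕ) : ∀ k c, (lst d k c).length = k := by
  intro k
  induction k with
  | zero => intro c; rfl
  | succ k ih => intro c; simp [lst, ih]

lemma lst_good (d : ℕ) (hd : 4 ≤ d) (hde : Even d) : ∀ k c b, Even c → b ≤ c + d →
    Good b (lst d k c) := by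
  intro k
  induction k with
  | zero => intro c b _ _; trivial
  | succ k ih =>
    intro c b hc hb
    exact ⟨hb, hc.add hde, by omega, ih (c + d) (c + d + 4) (hc.add hde) (by omega)⟩

lemma lst_sumF (d : ℕ) : ∀ k c, sumF (lst d k c) =
    ∑ i ∈ Finset.range k, Nat.fib (c + (i + 1) * d) := by
  intro k
  induction k with
  | zero => intro c; simp [lst, sumF]
  | succ k ih =>
    intro c
    rw [Finset.sum_range_succ']
    simp only [lst, sumF]
    rw [ih, add_comm]
    congr 1
    · apply Finset.sum_congr rfl
      intro i _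
      congr 1
      ring
    · congr 1
      ring

lemma fam_val (k a b : ℕ) : val (List.replicate k a ++ [b]) =
    sumF (lst (a + 1) k (b + 2)) + Nat.fib (b + 2) := by
  rw [lst_sumF]
  induction k with
  | zero => simp [val, W]
  | succ k ih =>
    rw [List.replicate_succ, List.cons_append, Finset.sum_range_succ]
    simp only [val]
    rw [ih, fam_W, show a + (k * (a + 1) + b + 1) + 2 = b + 2 + (k + 1) * (a + 1) by ring]
    ring

/-- `PPL` of the Fibonacci word is not recognizable by matrices over a field of characteristic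
zero -/
theorem no_rep {K : Type} [Field K] [CharZero K] {r : ℕ}
    {M : Bool → Matrix (Fin r) (Fin r) K} {row col : Fin r → K} (h : Rep M row col) : False := by
  obtain ⟨k, hk⟩ : ∃ k, k = (M false).charpoly.natTrailingDegree + 1 := ⟨_, rfl⟩
  obtain ⟨a, ha⟩ : ∃ a, a = 2 * k + 3 := ⟨_, rfl⟩
  obtain ⟨P, hP⟩ : ∃ P, P = 2 * ((2 * (k + 1) + 1) ^ r).factorial := ⟨_, rfl⟩
  obtain ⟨D, hD1, hD⟩ := ppl_lower (k + 1)
  obtain ⟨A, hA⟩ : ∃ A, A = List.replicate k a ++ [2 * k + 2] := ⟨_, rfl⟩
  have hlen : A.length = k + 1 := by rw [hA]; simp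
  have hmem : ∀ b ∈ A, 2 * k + 2 ≤ b := by
    intro b hb
    rw [hA, List.mem_append, List.mem_replicate, List.mem_singleton] at hb
    rcases hb with ⟨_, hb⟩ | hb <;> omega
  have hshift := h.shift_iter (s := 2 * k + 2) (B := 2 * (k + 1)) hP (by omega) (by omega) A hmem
    (by omega) D
  have hPpos : 1 ≤ P := by
    rw [hP]
    have := Nat.factorial_pos ((2 * (k + 1) + 1) ^ r)
    omega
  have hDP : D ≤ D * P := Nat.le_mul_of_pos_right D hPpos
  have hmap : A.map (· + D * P) = List.replicate k (a + D * P) ++ [2 * k + 2 + D * P] := by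
    rw [hA]; simp
  have hlow := hD (A.map (· + D * P)) (by simpa using hlen) (by
    intro b hb
    rw [List.mem_map] at hb
    obtain ⟨c, _, rfl⟩ := hb
    omega) (by
    rw [hmap]
    have hPe : Even (D * P) := by rw [hP]; exact (even_two_mul _).mul_left D
    apply fam_par
    · rw [ha]
      exact Odd.add_even ⟨k + 1, by ring⟩ hPe
    · exact Even.add ⟨k + 1, by ring⟩ hPe)
  rw [hshift, hA, fam_val] at hlow
  have hup := ppl_short (lst (a + 1) k (2 * k + 2 + 2)) (by
    rw [lst_length]
    exact lst_good (a + 1) (by omega) ⟨k + 2, by omega⟩ k _ _ ⟨k + 2, by omega⟩ (by omega))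
  rw [lst_length] at hup
  rw [show 2 * k + 4 = 2 * k + 2 + 2 by ring] at hup
  omega

theorem mw_not_regular (K : Type) [Field K] [CharZero K] :
    ¬ IsFibonacciRegular K (fun n => (PPL mw n : ℤ)) := by
  rintro ⟨r, _, row, col, M, h⟩
  apply no_rep (K := K) (r := r) (M := M) (row := row) (col := col)
  constructor
  intro A hA
  have := h (word A) (isZeckendorf_word A hA)
  rw [fibValue_word] at this
  simpa [mprod] using this

/-- representations can be mapped along ring homomorphisms -/
lemma regular_map {K L : Type} [CommRing K] [CommRing L] (φ : K →+* L) {f : ℕ → ℤ}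
    (h : IsFibonacciRegular K f) : IsFibonacciRegular L f := by
  obtain ⟨r, hr, row, col, M, h⟩ := h
  refine ⟨r, hr, fun i => φ (row i), fun i => φ (col i), fun b => (M b).map φ, ?_⟩
  intro w hw
  have h1 := congrArg φ (h w hw)
  rw [map_intCast] at h1
  rw [h1]
  have e1 : (w.map (fun b => (M b).map φ)).prod = ((w.map M).prod).map φ := by
    have := map_list_prod φ.mapMatrix (w.map M)
    rw [List.map_map] at this
    simpa [Function.comp_def] using this.symm
  rw [e1]
  have e2 : ((w.map M).prod.map φ) *ᵥ (fun i => φ (col i)) =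
      fun i => φ (((w.map M).prod *ᵥ col) i) := by
    funext i
    simp [Matrix.mulVec, dotProduct]
  rw [e2]
  simp [dotProduct]

/-- every commutative ring of characteristic zero maps to a field of characteristic zero -/
lemma exists_field (K : Type) [CommRing K] [CharZero K] :
    ∃ (L : Type) (_ : Field L) (_ : CharZero L), Nonempty (K →+* L) := by
  obtain ⟨p, hp, _, hd⟩ := Ideal.exists_le_prime_disjoint (⊥ : Ideal K)
    (Submonoid.map (Nat.castRingHom K) (nonZeroDivisors ℕ)) (by
      rw [Set.disjoint_left]
      rintro x hx ⟨n, hn, rfl⟩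
      have hn0 : n ≠ 0 := nonZeroDivisors.ne_zero hn
      have : ((n : ℕ) : K) = 0 := by simpa using hx
      exact hn0 (by exact_mod_cast this))
  have : IsDomain (K ⧸ p) := Ideal.Quotient.isDomain p
  have : CharZero (K ⧸ p) := by
    refine charZero_of_inj_zero ?_
    intro n hn
    by_contra hn0
    rw [Set.disjoint_left] at hd
    apply hd (a := (n : K))
    · have : (Ideal.Quotient.mk p (n : K)) = 0 := by rw [map_natCast]; exact hn
      exact Ideal.Quotient.eq_zero_iff_mem.mp this
    · exact ⟨n, mem_nonZeroDivisors_of_ne_zero hn0, rfl⟩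
  refine ⟨FractionRing (K ⧸ p), inferInstance, ?_,
    ⟨(algebraMap (K ⧸ p) (FractionRing (K ⧸ p))).comp (Ideal.Quotient.mk p)⟩⟩
  exact charZero_of_injective_algebraMap (IsFractionRing.injective (K ⧸ p) (FractionRing (K ⧸ p)))

theorem mw_not_regular_ring (K : Type) [CommRing K] [CharZero K] :
    ¬ IsFibonacciRegular K (fun n => (PPL mw n : ℤ)) := by
  intro h
  obtain ⟨L, _, _, ⟨φ⟩⟩ := exists_field K
  exact mw_not_regular L (regular_map φ h)

end Pool.Agent.H308R2.FibPal
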