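import Pool.Agent.H308R2.PPL.Word
set_option autoImplicit false

namespace Pool.Agent.H308R2.FibPal

/-! ### Fibonacci bases of the lattice -/

lemma fib_basis (n : ℕ) : ∀ l k : ℤ, ∃ a b : ℤ,
    l = a * Nat.fib (n + 1) + b * Nat.fib (n + 2) ∧
    st l k = a * ps ^ (n + 1) + b * ps ^ (n + 2) := by
  induction n with
  | zero =>
    intro l k
    refine ⟨l - k, k, by simp, ?_⟩
    unfold st
    have := ps_sq
    push_cast
    linear_combination (-(k : ℝ)) * this
  | succ n ih =>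
    intro l k
    obtain ⟨a, b, h1, h2⟩ := ih l k
    refine ⟨b - a, a, ?_, ?_⟩
    · rw [h1, Nat.fib_add_two (n := n + 1)]
      push_cast
      ring
    · rw [h2]
      have := ps_sq
      push_cast
      linear_combination (-(a : ℝ) * ps ^ (n + 1)) * this

lemma abs_ps_pos : 0 < |ps| := abs_pos.mpr (by have := ps_lt; linarith)
lemma abs_ps_lt : |ps| < 5 / 8 := by
  rw [abs_lt]
  have := ps_lt; have := lt_ps
  constructor <;> linarith

lemma abs_ps : |ps| = -ps := abs_of_neg (by have := ps_lt; linarith)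

lemma best_abs (n : ℕ) {l : ℤ} (k : ℤ) (h0 : l ≠ 0) (hl : |l| < Nat.fib (n + 2)) :
    |ps| ^ (n + 1) ≤ |st l k| := by
  obtain ⟨a, b, h1, h2⟩ := fib_basis n l k
  have e : st l k = ps ^ (n + 1) * (a + b * ps) := by rw [h2]; ring
  rw [e, abs_mul, abs_pow]
  have hpos : 0 < |ps| ^ (n + 1) := pow_pos abs_ps_pos _
  have hf1 : (0 : ℤ) < Nat.fib (n + 1) := by exact_mod_cast Nat.fib_pos.mpr (Nat.succ_pos n)
  have hf2 : (0 : ℤ) < Nat.fib (n + 2) := by exact_mod_cast Nat.fib_pos.mpr (Nat.succ_pos _)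
  have hl1 := (abs_lt.mp hl).1
  have hl2 := (abs_lt.mp hl).2
  have p1 := ps_lt
  suffices h : 1 ≤ |(a : ℝ) + b * ps| by
    nlinarith
  rcases lt_trichotomy b 0 with hb | hb | hb
  · -- b < 0 : then a ≥ 1
    have ha : 1 ≤ a := by
      by_contra hcon
      push Not at hcon
      have : a ≤ 0 := by omega
      nlinarith
    have ha' : (1 : ℝ) ≤ a := by exact_mod_cast ha
    have hb' : (b : ℝ) < 0 := by exact_mod_cast hb
    rw [abs_of_nonneg (by nlinarith)]
    nlinarith
  · subst hb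
    have ha : a ≠ 0 := by rintro rfl; apply h0; rw [h1]; ring
    have : (1 : ℝ) ≤ |(a : ℝ)| := by
      have : (1 : ℤ) ≤ |a| := Int.one_le_abs ha
      exact_mod_cast this
    simpa using this
  · have ha : a ≤ -1 := by
      by_contra hcon
      push Not at hcon
      have : 0 ≤ a := by omega
      nlinarith
    have ha' : (a : ℝ) ≤ -1 := by exact_mod_cast ha
    have hb' : (0 : ℝ) < b := by exact_mod_cast hb
    rw [abs_of_nonpos (by nlinarith)]
    nlinarith

/-- central words are palindromes -/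
lemma flip_central (N : ℕ) {y y' : ℤ} (h1 : 1 ≤ y') (h2 : y' < y)
    (h3 : y + y' = Nat.fib (N + 2)) : Flip y y' (Nat.fib (N + 1)) := by
  have hQ : st (y + y') (Nat.fib (N + 1)) = ps ^ (N + 2) := by rw [h3]; exact st_fib (N + 1)
  have hlt : |ps| ^ (N + 2) < |ps| ^ (N + 1) := by
    rw [pow_succ]
    have := pow_pos abs_ps_pos (N + 1)
    have := abs_ps_lt
    nlinarith
  have hbest : ∀ i k : ℤ, y' ≤ i → i ≤ y → |ps| ^ (N + 1) ≤ |st i k| := by
    intro i k hi1 hi2
    apply best_abs N k (by omega)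
    rw [abs_lt]
    constructor <;> omega
  have habs : |ps ^ (N + 2)| = |ps| ^ (N + 2) := abs_pow _ _
  refine ⟨h1, h2, ?_, ?_⟩
  · rintro i k hi1 hi2 ⟨h4, h5⟩
    rw [hQ] at h5
    have := hbest i k hi1 hi2
    rw [abs_of_pos h4] at this
    have := le_abs_self (ps ^ (N + 2))
    linarith
  · rintro i k hi1 hi2 ⟨h4, h5⟩
    rw [hQ] at h4
    have := hbest i k hi1 hi2
    rw [abs_of_neg h5] at this
    have := neg_abs_le (ps ^ (N + 2))
    linarith

lemma ppl_flip {n m : ℕ} {κ : ℤ} (F : Flip (n + 1) (m + 1) κ) : PPL mw n ≤ PPL mw m + 1 :=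
  ppl_step mw (by have := F.lt; omega) (flip_pal F)

lemma ppl_central (N : ℕ) {n m : ℕ} (h2 : m < n) (h3 : n + m + 2 = Nat.fib (N + 2)) :
    PPL mw n ≤ PPL mw m + 1 :=
  ppl_flip (flip_central N (y := n + 1) (y' := m + 1) (by omega) (by omega) (by omega))

/-- adding one sparse digit costs at most two palindromes -/
lemma ppl_add_fib {v N : ℕ} (h : v + 1 ≤ Nat.fib (N + 2)) :
    PPL mw (Nat.fib (N + 5) + v) ≤ PPL mw v + 2 := by
  have e1 : Nat.fib (N + 6) = Nat.fib (N + 4) + Nat.fib (N + 5) := Nat.fib_add_two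
  have e2 : Nat.fib (N + 5) = Nat.fib (N + 3) + Nat.fib (N + 4) := Nat.fib_add_two
  have e3 : Nat.fib (N + 4) = Nat.fib (N + 2) + Nat.fib (N + 3) := Nat.fib_add_two
  have e4 : Nat.fib (N + 3) = Nat.fib (N + 1) + Nat.fib (N + 2) := Nat.fib_add_two
  have e5 : 0 < Nat.fib (N + 1) := Nat.fib_pos.mpr (Nat.succ_pos _)
  have s1 : PPL mw (Nat.fib (N + 5) + v) ≤ PPL mw (Nat.fib (N + 4) - v - 2) + 1 :=
    ppl_central (N + 4) (by omega) (by
      have : Nat.fib (N + 4 + 2) = Nat.fib (N + 6) := by congr 1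
      omega)
  have s2 : PPL mw (Nat.fib (N + 4) - v - 2) ≤ PPL mw v + 1 :=
    ppl_central (N + 2) (by omega) (by
      have : Nat.fib (N + 2 + 2) = Nat.fib (N + 4) := by congr 1
      omega)
  omega

/-! ### values of words -/

/-- number of digits of the word `1 0^{a₁} 1 0^{a₂} ⋯` -/
def W : List ℕ → ℕ
  | [] => 0
  | a :: A => a + 1 + W A

/-- value of the word `1 0^{a₁} 1 0^{a₂} ⋯` -/
def val : List ℕ → ℕ
  | [] => 0
  | a :: A => Nat.fib (a + W A + 2) + val A

lemma val_lt {A : List ℕ} (hA : ∀ a ∈ A, 1 ≤ a) : val A + 1 ≤ Nat.fib (W A + 2) := by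
  induction A with
  | nil => simp [val, W]
  | cons a A ih =>
    have h1 := ih (fun b hb => hA b (List.mem_cons_of_mem _ hb))
    have h2 := hA a List.mem_cons_self
    simp only [val, W]
    have e : Nat.fib (a + 1 + W A + 2) = Nat.fib (a + 1 + W A) + Nat.fib (a + 1 + W A + 1) :=
      Nat.fib_add_two
    have h3 : Nat.fib (W A + 2) ≤ Nat.fib (a + 1 + W A) := Nat.fib_mono (by omega)
    rw [show a + W A + 2 = a + 1 + W A + 1 by ring, e]
    omega

lemma ppl_val_le {A : List ℕ} (hA : ∀ a ∈ A, 3 ≤ a) : PPL mw (val A) ≤ 2 * A.length := by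
  induction A with
  | nil => simp [val, ppl_zero]
  | cons a A ih =>
    have h1 := ih (fun b hb => hA b (List.mem_cons_of_mem _ hb))
    have h2 := hA a List.mem_cons_self
    have h3 := val_lt (A := A) (fun b hb => by
      have := hA b (List.mem_cons_of_mem _ hb); omega)
    obtain ⟨c, rfl⟩ : ∃ c, a = c + 3 := ⟨a - 3, by omega⟩
    have h4 : val A + 1 ≤ Nat.fib (c + W A + 2) :=
      h3.trans (Nat.fib_mono (by omega))
    have := ppl_add_fib h4
    simp only [val, List.length_cons]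
    rw [show c + 3 + W A + 2 = c + W A + 5 by ring]
    omega

/-! ### the short path when the last block of zeros is short -/

/-- the sum of Fibonacci numbers with indices in `l` -/
def sumF : List ℕ → ℕ
  | [] => 0
  | n :: l => Nat.fib n + sumF l

/-- the second coordinate of the lattice point over `sumF l` -/
def sumG : List ℕ → ℕ
  | [] => 0
  | n :: l => Nat.fib (n - 1) + sumG l

/-- even indices, increasing with gaps at least four, the first at least `b` -/
def Good : ℕ → List ℕ → Prop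
  | _, [] => True
  | b, n :: l => b ≤ n ∧ Even n ∧ 2 ≤ n ∧ Good (n + 4) l

lemma st_single {n : ℕ} (hn : 1 ≤ n) : st (Nat.fib n) (Nat.fib (n - 1)) = ps ^ n := by
  obtain ⟨m, rfl⟩ : ∃ m, n = m + 1 := ⟨n - 1, by omega⟩
  exact st_fib m

lemma even_pow_pos {n : ℕ} (hn : Even n) : ps ^ n = |ps| ^ n := (hn.pow_abs ps).symm

lemma pow_anti {a b : ℕ} (h : a ≤ b) : |ps| ^ b ≤ |ps| ^ a :=
  pow_le_pow_of_le_one (abs_nonneg _) (by have := abs_ps_lt; linarith) h

lemma st_good : ∀ (l : List ℕ) (b : ℕ), Good b l →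
    0 ≤ st (sumF l) (sumG l) ∧ st (sumF l) (sumG l) ≤ 2 * |ps| ^ b := by
  intro l
  induction l with
  | nil =>
    intro b _
    have := pow_pos abs_ps_pos b
    simp only [sumF, sumG, st]
    simp
  | cons n l ih =>
    intro b h
    obtain ⟨h1, h2, h3, h4⟩ := h
    obtain ⟨i1, i2⟩ := ih _ h4
    have e : st (sumF (n :: l)) (sumG (n :: l)) = ps ^ n + st (sumF l) (sumG l) := by
      rw [← st_single (n := n) (by omega), ← st_add]
      simp only [sumF, sumG]
      push_cast; rfl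
    rw [e, even_pow_pos h2]
    have a1 := pow_pos abs_ps_pos n
    have a2 : |ps| ^ (n + 4) ≤ |ps| ^ n * (1 / 2) := by
      rw [pow_add]
      apply mul_le_mul_of_nonneg_left _ a1.le
      have h5 : |ps| ^ 4 ≤ (5 / 8) ^ 4 := pow_le_pow_left₀ (abs_nonneg _) abs_ps_lt.le 4
      norm_num at h5 ⊢
      linarith
    have a3 := pow_anti h1
    constructor <;> linarith

lemma flip_cross {l : List ℕ} {c : ℕ} (hc : Even c) (hc4 : 4 ≤ c) (hl : l ≠ [])
    (hg : Good (c + 4) l) :
    Flip ((sumF l + Nat.fib c : ℕ) + 1) ((sumF l - Nat.fib (c - 2) - 2 : ℕ) + 1)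
      (2 * sumG l + Nat.fib (c - 2)) := by
  obtain ⟨N, rfl⟩ : ∃ N, c = N + 4 := ⟨c - 4, by omega⟩
  have e3 : Nat.fib (N + 5) = Nat.fib (N + 3) + Nat.fib (N + 4) := Nat.fib_add_two
  have e4 : Nat.fib (N + 4) = Nat.fib (N + 2) + Nat.fib (N + 3) := Nat.fib_add_two
  have e5 : Nat.fib (N + 3) = Nat.fib (N + 1) + Nat.fib (N + 2) := Nat.fib_add_two
  have e6 : 0 < Nat.fib (N + 1) := Nat.fib_pos.mpr (Nat.succ_pos _)
  have e7 : 0 < Nat.fib (N + 2) := Nat.fib_pos.mpr (Nat.succ_pos _)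
  simp only [show N + 4 - 2 = N + 2 by omega] at *
  obtain ⟨n, l', rfl⟩ : ∃ n l', l = n :: l' := by
    cases l with
    | nil => exact absurd rfl hl
    | cons n l' => exact ⟨n, l', rfl⟩
  have hbig : Nat.fib (N + 5) ≤ sumF (n :: l') := by
    have h1 := hg.1
    have : Nat.fib (N + 5) ≤ Nat.fib n := Nat.fib_mono (by omega)
    simp only [sumF]
    omega
  obtain ⟨s1, s2⟩ := st_good _ _ hg
  generalize sumF (n :: l') = H at *
  generalize sumG (n :: l') = G at *
  have hy' : ((H - Nat.fib (N + 2) - 2 : ℕ) : ℤ) + 1 = H - Nat.fib (N + 2) - 1 := by omega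
  rw [hy']
  push_cast
  have hQ : st ((H : ℤ) + Nat.fib (N + 4) + 1 + (H - Nat.fib (N + 2) - 1)) (2 * G + Nat.fib (N + 2))
      = 2 * st H G + ps ^ (N + 3) := by
    rw [← st_fib (N + 2), e4]
    unfold st
    push_cast
    ring
  have hodd : ps ^ (N + 3) = -|ps| ^ (N + 3) := by
    have : Odd (N + 3) := by
      rcases hc with ⟨r, hr⟩
      exact ⟨r - 1, by omega⟩
    rw [abs_ps, this.neg_pow]
    ring
  have heven : ps ^ (N + 4) = |ps| ^ (N + 4) := even_pow_pos hc
  have a1 := pow_pos abs_ps_pos (N + 3)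
  have hsmall : 2 * (2 * |ps| ^ (N + 4 + 4)) ≤ |ps| ^ (N + 3) := by
    rw [show N + 4 + 4 = (N + 3) + 5 by ring, pow_add]
    have h5 : |ps| ^ 5 ≤ (5 / 8) ^ 5 := pow_le_pow_left₀ (abs_nonneg _) abs_ps_lt.le 5
    norm_num at h5
    nlinarith
  refine ⟨by omega, by omega, ?_, ?_⟩
  · rintro i k _ _ ⟨h4, h5⟩
    rw [hQ, hodd] at h5
    linarith
  · rintro i k hi1 hi2 ⟨h4, h5⟩
    rw [hQ, hodd] at h4
    obtain ⟨a, b, b1, b2⟩ := fib_basis (N + 2) (i - H) (k - G)
    rw [st_sub, show N + 2 + 1 = N + 3 by ring, show N + 2 + 2 = N + 4 by ring, hodd, heven] at b2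
    rw [show N + 2 + 1 = N + 3 by ring, show N + 2 + 2 = N + 4 by ring] at b1
    have a2 := pow_pos abs_ps_pos (N + 4)
    have f3 : (0 : ℤ) < Nat.fib (N + 3) := by omega
    have f4 : (0 : ℤ) < Nat.fib (N + 4) := by omega
    have e4' : (Nat.fib (N + 4) : ℤ) = Nat.fib (N + 2) + Nat.fib (N + 3) := by exact_mod_cast e4
    have e7' : (0 : ℤ) < Nat.fib (N + 2) := by exact_mod_cast e7
    have f3' : (2 : ℤ) ≤ Nat.fib (N + 3) := by omega
    rcases le_or_gt a 0 with ha | ha <;> rcases le_or_gt b (-1) with hb | hb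
    · -- a ≤ 0, b ≤ -1 : too far to the left
      nlinarith
    · -- a ≤ 0, 0 ≤ b : star nonnegative
      have ha' : (a : ℝ) ≤ 0 := by exact_mod_cast ha
      have hb' : (0 : ℝ) ≤ b := by
        have : 0 ≤ b := by omega
        exact_mod_cast this
      have : 0 ≤ (a : ℝ) * -|ps| ^ (N + 3) + b * |ps| ^ (N + 4) := by
        have := mul_nonneg (neg_nonneg.mpr ha') a1.le
        have := mul_nonneg hb' a2.le
        linarith
      linarith
    · -- a ≥ 1, b ≤ -1
      have ha' : (1 : ℝ) ≤ a := by exact_mod_cast ha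
      have hb' : (b : ℝ) ≤ 0 := by
        have : b ≤ 0 := by omega
        exact_mod_cast this
      have := mul_le_mul_of_nonneg_right ha' a1.le
      have := mul_nonneg (neg_nonneg.mpr hb') a2.le
      linarith
    · rcases eq_or_lt_of_le (show 0 ≤ b by omega) with hb0 | hb0
      · have ha' : (1 : ℝ) ≤ a := by exact_mod_cast ha
        have := mul_le_mul_of_nonneg_right ha' a1.le
        rw [← hb0] at b2
        push_cast at b2
        linarith
      · nlinarith

lemma flip_big {l : List ℕ} {n s : ℕ} (hn : Even n) (hn4 : 2 ≤ n) (hg : Good (n + 4) l)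
    (hs : 1 ≤ s) (hs2 : 2 * s < Nat.fib n) :
    Flip ((sumF l + Nat.fib n - s - 1 : ℕ) + 1) ((sumF l + s - 1 : ℕ) + 1)
      (2 * sumG l + Nat.fib (n - 1)) := by
  obtain ⟨s1, s2⟩ := st_good _ _ hg
  generalize sumF l = H at *
  generalize sumG l = G at *
  have hy1 : ((H + Nat.fib n - s - 1 : ℕ) : ℤ) + 1 = H + Nat.fib n - s := by omega
  have hy2 : ((H + s - 1 : ℕ) : ℤ) + 1 = H + s := by omega
  rw [hy1, hy2]
  have hQ : st ((H : ℤ) + Nat.fib n - s + (H + s)) (2 * G + Nat.fib (n - 1))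
      = 2 * st H G + |ps| ^ n := by
    rw [← even_pow_pos hn, ← st_single (n := n) (by omega)]
    unfold st
    push_cast
    ring
  have a1 := pow_pos abs_ps_pos n
  obtain ⟨N, rfl⟩ : ∃ N, n = N + 2 := ⟨n - 2, by omega⟩
  have hsmall : 2 * |ps| ^ (N + 2 + 4) + |ps| ^ (N + 2) ≤ |ps| ^ (N + 1) := by
    rw [show N + 2 + 4 = (N + 1) + 5 by ring, show N + 2 = (N + 1) + 1 by ring,
      pow_add _ _ 5, pow_succ _ (N + 1)]
    have h5 : |ps| ^ 5 ≤ (5 / 8) ^ 5 := pow_le_pow_left₀ (abs_nonneg _) abs_ps_lt.le 5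
    norm_num at h5
    have := pow_pos abs_ps_pos (N + 1)
    have := abs_ps_lt
    nlinarith
  refine ⟨by omega, by omega, ?_, ?_⟩
  · rintro i k hi1 hi2 ⟨h4, h5⟩
    rw [hQ] at h5
    have hb := best_abs N (l := i - H) (k - G) (by omega) (by rw [abs_lt]; constructor <;> omega)
    rw [st_sub] at hb
    have : |st i k - st H G| < |ps| ^ (N + 1) := by
      rw [abs_lt]
      constructor <;> linarith
    linarith
  · rintro i k _ _ ⟨h4, h5⟩
    rw [hQ] at h4
    linarith

lemma ppl_three : PPL mw 3 ≤ 1 := by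
  have h := ppl_central 3 (n := 3) (m := 0) (by norm_num) (by decide)
  rw [ppl_zero] at h
  exact h

/-- the short path -/
lemma ppl_short : ∀ (l : List ℕ), Good (2 * l.length + 8) l →
    PPL mw (sumF l + Nat.fib (2 * l.length + 4)) ≤ 2 * l.length + 1 := by
  intro l
  induction l with
  | nil =>
    intro _
    have h4 : Nat.fib 4 = 3 := by decide
    simpa [sumF, h4] using ppl_three
  | cons n l ih =>
    intro hg
    obtain ⟨h1, h2, h3, h4⟩ := hg
    simp only [List.length_cons] at h1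
    have hg' : Good (2 * l.length + 8) l := by
      cases l with
      | nil => trivial
      | cons m l =>
        obtain ⟨g1, g2, g3, g4⟩ := h4
        exact ⟨by omega, g2, g3, g4⟩
    have hi := ih hg'
    obtain ⟨c, hc⟩ : ∃ c, c = 2 * (l.length + 1) + 4 := ⟨_, rfl⟩
    have f1 := flip_cross (l := n :: l) (c := c) ⟨l.length + 3, by omega⟩ (by omega) (by simp)
      ⟨by omega, h2, h3, h4⟩
    have s1 := ppl_flip f1
    have hcc : Nat.fib (c - 2) = Nat.fib (2 * l.length + 4) := by congr 1; omega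
    have hlt : 2 * (Nat.fib (c - 2) + 1) < Nat.fib n := by
      have e1 : Nat.fib (c + 1) = Nat.fib (c - 1) + Nat.fib c := by
        obtain ⟨d, rfl⟩ : ∃ d, c = d + 1 := ⟨c - 1, by omega⟩
        exact Nat.fib_add_two
      have e2 : Nat.fib c = Nat.fib (c - 2) + Nat.fib (c - 1) := by
        obtain ⟨d, rfl⟩ : ∃ d, c = d + 2 := ⟨c - 2, by omega⟩
        exact Nat.fib_add_two
      have e3 : Nat.fib (c - 2) ≤ Nat.fib (c - 1) := Nat.fib_mono (by omega)
      have e4 : Nat.fib (c + 1) ≤ Nat.fib n := Nat.fib_mono (by omega)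
      have e5 : Nat.fib 4 ≤ Nat.fib (c - 2) := Nat.fib_mono (by omega)
      have e6 : Nat.fib 4 = 3 := by decide
      omega
    have f2 := flip_big (l := l) (n := n) (s := Nat.fib (c - 2) + 1) h2 h3 h4 (by omega) hlt
    have s2 := ppl_flip f2
    have q1 : sumF (n :: l) - Nat.fib (c - 2) - 2 =
        sumF l + Nat.fib n - (Nat.fib (c - 2) + 1) - 1 := by
      simp only [sumF]; omega
    have q2 : sumF l + (Nat.fib (c - 2) + 1) - 1 = sumF l + Nat.fib (2 * l.length + 4) := by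
      rw [hcc]; omega
    rw [q1] at s1
    rw [q2] at s2
    simp only [List.length_cons]
    rw [← hc]
    omega

end Pool.Agent.H308R2.FibPal
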