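import Pool.Agent.H308R2.PPL.Chain
import Pool.Agent.H308R2.PPL.Defs
set_option autoImplicit false

namespace Pool.Agent.H308R2.FibPal

/-- floor of `θ i`, where `θ = -ps` -/
noncomputable def fl (i : ℤ) : ℤ := ⌊-ps * i⌋

lemma fl_le (i : ℤ) : (fl i : ℝ) ≤ -ps * i := Int.floor_le _
lemma lt_fl (i : ℤ) : -ps * i < (fl i : ℝ) + 1 := Int.lt_floor_add_one _

lemma fl_succ (i : ℤ) : fl (i + 1) = fl i ∨ fl (i + 1) = fl i + 1 := by
  have h1 := fl_le i
  have h2 := lt_fl i
  have h3 := fl_le (i + 1)
  have h4 := lt_fl (i + 1)
  have h5 := ps_lt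
  have h6 := lt_ps
  push_cast at h3 h4
  have a1 : (fl (i + 1) : ℝ) < fl i + 2 := by linarith
  have a2 : (fl i : ℝ) < fl (i + 1) + 1 := by linarith
  have b1 : fl (i + 1) < fl i + 2 := by exact_mod_cast a1
  have b2 : fl i < fl (i + 1) + 1 := by exact_mod_cast a2
  omega

/-- the mechanical word of slope `θ` -/
noncomputable def mw (n : ℕ) : Bool := decide (fl (n + 1) = fl n + 1)

lemma fl_step (n : ℕ) : fl (n + 1) = fl n + (if mw n then 1 else 0) := by
  unfold mw
  by_cases h : fl (n + 1) = fl n + 1
  · simp [h]
  · rcases fl_succ n with h1 | h1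
    · simp [h1]
    · exact absurd h1 h

lemma mw_eq_iff (a b : ℕ) : mw a = mw b ↔ fl (a + 1) - fl a = fl (b + 1) - fl b := by
  have h1 := fl_step a
  have h2 := fl_step b
  cases ha : mw a <;> cases hb : mw b <;> simp [ha, hb] at * <;> omega

/-- the block from position `m+1` to position `n` is a palindrome -/
def Pal {A : Type} (u : ℕ → A) (m n : ℕ) : Prop :=
  ∀ x, m < x → x ≤ n → u x = u (m + n + 1 - x)

lemma pal_const {m n : ℕ} (h : Pal mw m n) : ∀ x : ℕ, m + 1 ≤ x → x ≤ n + 1 →
    fl x + fl (m + n + 2 - x) = fl (m + 1) + fl (n + 1) := by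
  intro x hx
  induction x, hx using Nat.le_induction with
  | base =>
    intro _
    rw [show ((m : ℤ) + n + 2 - ((m + 1 : ℕ) : ℤ)) = n + 1 by push_cast; ring]
    push_cast; rfl
  | succ x hx ih =>
    intro hx2
    have ih' := ih (by omega)
    have h1 := h x (by omega) (by omega)
    rw [mw_eq_iff] at h1
    have e1 : ((m + n + 1 - x : ℕ) : ℤ) = m + n + 1 - x := by omega
    rw [e1] at h1
    rw [show (m : ℤ) + n + 1 - x + 1 = m + n + 2 - x by ring] at h1
    push_cast
    rw [show (m : ℤ) + n + 2 - (x + 1) = m + n + 1 - x by ring]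
    linarith

lemma pal_flip {m n : ℕ} (hmn : m < n) (h : Pal mw m n) :
    Flip (n + 1) (m + 1) (fl (m + 1) + fl (n + 1) + 1) := by
  have hc := pal_const h
  have hkey : ∀ i : ℤ, (m : ℤ) + 1 ≤ i → i ≤ n + 1 →
      fl i + fl (m + n + 2 - i) = fl (m + 1) + fl (n + 1) := by
    intro i h1 h2
    obtain ⟨x, rfl⟩ := Int.eq_ofNat_of_zero_le (show 0 ≤ i by omega)
    exact hc x (by omega) (by omega)
  have hQ : ∀ i : ℤ, (m : ℤ) + 1 ≤ i → i ≤ n + 1 →
      st ((n : ℤ) + 1 + (m + 1)) (fl (m + 1) + fl (n + 1) + 1) =
        (fl i + ps * i) + (fl (m + n + 2 - i) + ps * (m + n + 2 - i)) + 1 := by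
    intro i h1 h2
    rw [← hkey i h1 h2]
    unfold st
    push_cast
    ring
  refine ⟨by omega, by omega, ?_, ?_⟩
  · rintro i k h1 h2 ⟨h3, h4⟩
    rw [hQ i h1 h2] at h4
    unfold st at h3 h4
    have a1 := fl_le i
    have a2 := fl_le (m + n + 2 - i)
    push_cast at a2
    have a3 : (fl i : ℝ) < k := by linarith
    have a4 : fl i + 1 ≤ k := by
      have : fl i < k := by exact_mod_cast a3
      omega
    have a5 : (fl i : ℝ) + 1 ≤ k := by exact_mod_cast a4
    linarith
  · rintro i k h1 h2 ⟨h3, h4⟩
    rw [hQ i h1 h2] at h3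
    unfold st at h3 h4
    have a1 := lt_fl i
    have a2 := lt_fl (m + n + 2 - i)
    push_cast at a2
    have a3 : (k : ℝ) < fl i + 1 := by linarith
    have a4 : k < fl i + 1 := by exact_mod_cast a3
    have a5 : (k : ℝ) ≤ fl i := by
      have : k ≤ fl i := by omega
      exact_mod_cast this
    linarith

lemma flip_pal {m n : ℕ} {κ : ℤ} (F : Flip (n + 1) (m + 1) κ) : Pal mw m n := by
  have hkey : ∀ i : ℤ, (m : ℤ) + 1 ≤ i → i ≤ n + 1 → fl i + fl (m + n + 2 - i) = κ - 1 := by
    intro i h1 h2
    obtain ⟨Q, hQ⟩ : ∃ Q : ℝ, Q = st ((n : ℤ) + 1 + (m + 1)) κ := ⟨_, rfl⟩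
    obtain ⟨a, ha⟩ : ∃ a : ℝ, a = -ps * i - fl i := ⟨_, rfl⟩
    obtain ⟨i', hi'⟩ : ∃ i' : ℤ, i' = m + n + 2 - i := ⟨_, rfl⟩
    obtain ⟨b, hb⟩ : ∃ b : ℝ, b = -ps * i' - fl i' := ⟨_, rfl⟩
    have ha1 : a < 1 := by have := lt_fl i; linarith
    have hb1 : b < 1 := by have := lt_fl i'; linarith
    have ha0 : 0 < a := by
      have h0 : 0 ≤ a := by have := fl_le i; linarith
      rcases eq_or_lt_of_le h0 with h | h
      · exfalso
        apply st_ne_zero (j := i) (k := fl i) (by omega)
        unfold st; linarith
      · exact h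
    have hb0 : 0 < b := by
      have h0 : 0 ≤ b := by have := fl_le i'; linarith
      rcases eq_or_lt_of_le h0 with h | h
      · exfalso
        apply st_ne_zero (j := i') (k := fl i') (by omega)
        unfold st; linarith
      · exact h
    have hsum : ((κ - (fl i + fl i') : ℤ) : ℝ) = a + b + Q := by
      rw [ha, hb, hQ, hi']
      unfold st
      push_cast
      ring
    have n1a := F.no1 i (fl i + 1) (by omega) (by omega)
    have n2a := F.no2 i (fl i) (by omega) (by omega)
    have n1b := F.no1 i' (fl i' + 1) (by omega) (by omega)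
    have n2b := F.no2 i' (fl i') (by omega) (by omega)
    rw [← hQ] at n1a n2a n1b n2b
    have e1 : st i (fl i + 1) = 1 - a := by unfold st; push_cast; linarith
    have e2 : st i (fl i) = -a := by unfold st; linarith
    have e3 : st i' (fl i' + 1) = 1 - b := by unfold st; push_cast; linarith
    have e4 : st i' (fl i') = -b := by unfold st; linarith
    rw [e1] at n1a
    rw [e2] at n2a
    rw [e3] at n1b
    rw [e4] at n2b
    have c1 : Q ≤ 1 - a := by
      by_contra hcon; push Not at hcon; exact n1a ⟨by linarith, hcon⟩
    have c2 : -a ≤ Q := by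
      by_contra hcon; push Not at hcon; exact n2a ⟨hcon, by linarith⟩
    have c3 : Q ≤ 1 - b := by
      by_contra hcon; push Not at hcon; exact n1b ⟨by linarith, hcon⟩
    have c4 : -b ≤ Q := by
      by_contra hcon; push Not at hcon; exact n2b ⟨hcon, by linarith⟩
    have d1 : (0 : ℝ) < a + b + Q := by linarith
    have d2 : a + b + Q < 2 := by linarith
    rw [← hsum] at d1 d2
    have d3 : 0 < κ - (fl i + fl i') := by exact_mod_cast d1
    have d4 : κ - (fl i + fl i') < 2 := by exact_mod_cast d2
    rw [hi'] at d3 d4
    omega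
  intro x hx1 hx2
  rw [mw_eq_iff]
  have e1 : ((m + n + 1 - x : ℕ) : ℤ) = m + n + 1 - x := by omega
  rw [e1]
  have h1 := hkey x (by omega) (by omega)
  have h2 := hkey (x + 1) (by omega) (by omega)
  rw [show (m : ℤ) + n + 2 - (x + 1) = m + n + 1 - x by ring] at h2
  rw [show (m : ℤ) + n + 1 - x + 1 = m + n + 2 - x by ring]
  linarith

/-! ### palindromic decompositions -/

section general
variable {A : Type} (u : ℕ → A)

def seg (m n : ℕ) : List A := (List.range (n - m)).map (fun i => u (m + i + 1))

lemma block_append {m n : ℕ} (h : m ≤ n) : initialBlock u n = initialBlock u m ++ seg u m n := by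
  unfold initialBlock seg
  obtain ⟨k, rfl⟩ := Nat.exists_eq_add_of_le h
  rw [Nat.add_sub_cancel_left, List.range_add, List.map_append, List.map_map]
  rfl

lemma block_length (n : ℕ) : (initialBlock u n).length = n := by
  unfold initialBlock; simp

lemma block_succ (n : ℕ) : initialBlock u (n + 1) = initialBlock u n ++ [u (n + 1)] := by
  rw [block_append u (Nat.le_succ n)]
  congr 1
  unfold seg
  simp

lemma seg_length (m n : ℕ) : (seg u m n).length = n - m := by
  unfold seg; simp

lemma seg_pal {m n : ℕ} (h : m ≤ n) : (seg u m n).reverse = seg u m n ↔ Pal u m n := by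
  constructor
  · intro hr x h1 h2
    have hx : x - m - 1 < n - m := by omega
    have e : (seg u m n).reverse[x - m - 1]'(by simpa [seg_length] using hx)
        = (seg u m n)[x - m - 1]'(by simpa [seg_length] using hx) := by
      simp only [hr]
    rw [List.getElem_reverse] at e
    simp only [seg, List.length_map, List.length_range, List.getElem_map, List.getElem_range] at e
    rw [show m + (n - m - 1 - (x - m - 1)) + 1 = m + n + 1 - x by omega,
      show m + (x - m - 1) + 1 = x by omega] at e
    exact e.symm
  · intro hp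
    apply List.ext_getElem
    · simp
    · intro i h1 h2
      rw [seg_length] at h2
      rw [List.getElem_reverse]
      simp only [seg, List.length_map, List.length_range, List.getElem_map, List.getElem_range]
      have := hp (m + i + 1) (by omega) (by omega)
      rw [this]
      congr 1; omega

lemma single_decomp (n : ℕ) : ∃ L : List (List A), (∀ p ∈ L, p ≠ [] ∧ p.reverse = p) ∧
    L.flatten = initialBlock u n := by
  refine ⟨(initialBlock u n).map (fun x => [x]), ?_, ?_⟩
  · intro p hp
    rw [List.mem_map] at hp
    obtain ⟨x, -, rfl⟩ := hp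
    simp
  · generalize initialBlock u n = l
    induction l with
    | nil => rfl
    | cons a l ih => simpa using ih

lemma ppl_nonempty (n : ℕ) : {k | ∃ L : List (List A), L.length = k ∧
    (∀ p ∈ L, p ≠ [] ∧ p.reverse = p) ∧ L.flatten = initialBlock u n}.Nonempty := by
  obtain ⟨L, h1, h2⟩ := single_decomp u n
  exact ⟨_, L, rfl, h1, h2⟩

lemma ppl_spec (n : ℕ) : ∃ L : List (List A), L.length = PPL u n ∧
    (∀ p ∈ L, p ≠ [] ∧ p.reverse = p) ∧ L.flatten = initialBlock u n :=
  Nat.sInf_mem (ppl_nonempty u n)

lemma ppl_zero : PPL u 0 = 0 := by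
  apply Nat.le_zero.mp
  exact Nat.sInf_le ⟨[], rfl, by simp, by simp [initialBlock]⟩

lemma ppl_step {m n : ℕ} (hmn : m < n) (hp : Pal u m n) : PPL u n ≤ PPL u m + 1 := by
  obtain ⟨L, hL1, hL2, hL3⟩ := ppl_spec u m
  apply Nat.sInf_le
  refine ⟨L ++ [seg u m n], by simp [hL1], ?_, ?_⟩
  · intro p hpm
    rw [List.mem_append, List.mem_singleton] at hpm
    rcases hpm with h | rfl
    · exact hL2 p h
    · refine ⟨?_, (seg_pal u hmn.le).mpr hp⟩
      intro hnil
      have := seg_length u m n
      rw [hnil] at this
      simp at this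
      omega
  · rw [List.flatten_append, hL3, block_append u hmn.le]
    simp

end general

lemma decomp_reach : ∀ (L : List (List Bool)) (n : ℕ), (∀ p ∈ L, p ≠ [] ∧ p.reverse = p) →
      L.flatten = initialBlock mw n → Reach L.length (n + 1) := by
  intro L
  induction L using List.reverseRecOn with
  | nil =>
    intro n _ hf
    have : n = 0 := by
      have := congrArg List.length hf
      rw [block_length] at this
      simpa using this.symm
    subst this
    exact Reach.zero
  | append_singleton L p ih =>
    intro n hL hf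
    rw [List.flatten_append] at hf
    simp only [List.flatten_cons, List.flatten_nil, List.append_nil] at hf
    have hlen := congrArg List.length hf
    rw [List.length_append, block_length] at hlen
    have hpL := hL p (by simp)
    have hp0 : 0 < p.length := List.length_pos_iff.mpr hpL.1
    have hm : L.flatten.length < n := by omega
    have happ := block_append mw hm.le
    rw [← hf] at happ
    have hinj := List.append_inj happ (by rw [block_length])
    have h1 := ih L.flatten.length (fun q hq => hL q (by simp [hq])) hinj.1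
    have h2 : Pal mw L.flatten.length n := by
      rw [← seg_pal mw hm.le, ← hinj.2]; exact hpL.2
    rw [List.length_append, List.length_singleton]
    exact Reach.succ _ _ _ _ (pal_flip hm h2) h1

lemma ppl_reach (n : ℕ) : Reach (PPL mw n) (n + 1) := by
  obtain ⟨L, hL1, hL2, hL3⟩ := ppl_spec mw n
  rw [← hL1]
  exact decomp_reach L n hL2 hL3

/-! ### the mechanical word is the Fibonacci word -/

lemma fl_zero : fl 0 = 0 := by unfold fl; simp
lemma fl_one : fl 1 = 0 := by
  unfold fl
  rw [Int.floor_eq_iff]
  have := ps_lt; have := lt_ps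
  constructor <;> push_cast <;> linarith

lemma mw_true_iff (p : ℤ) (j : ℤ) (h1 : (p : ℝ) < j - ps * j) (h2 : (j : ℝ) - ps * j < p + 1) :
    fl (p + 1) = fl p + 1 := by
  -- `p < j φ < p + 1` where `φ = 1 - ps`; so `θ p < j < θ (p + 1)`
  have hs := ps_sq
  have e1 := ps_lt
  have e2 := lt_ps
  have a1 : -ps * p < j := by
    have := mul_lt_mul_of_pos_left h1 (show (0 : ℝ) < -ps by linarith)
    have e : -ps * ((j : ℝ) - ps * j) = j := by linear_combination (j : ℝ) * hs
    linarith
  have a2 : (j : ℝ) < -ps * (p + 1) := by
    have := mul_lt_mul_of_pos_left h2 (show (0 : ℝ) < -ps by linarith)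
    have e : -ps * ((j : ℝ) - ps * j) = j := by linear_combination (j : ℝ) * hs
    linarith
  have b1 := fl_le p
  have b2 := lt_fl (p + 1)
  push_cast at b2
  have c1 : (fl p : ℝ) < j := by linarith
  have c2 : (j : ℝ) < fl (p + 1) + 1 := by linarith
  have c3 : fl p < j := by exact_mod_cast c1
  have c4 : j < fl (p + 1) + 1 := by exact_mod_cast c2
  rcases fl_succ p with h | h <;> omega

/-- image of the initial block under the morphism -/
lemma image_block (n : ℕ) : (initialBlock mw n).flatMap fibMorphism =
    initialBlock mw (n + (fl (n + 1)).toNat) := by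
  induction n with
  | zero => simp [initialBlock, fl_one]
  | succ n ih =>
    rw [block_succ, List.flatMap_append, ih]
    have hnn : 0 ≤ fl (n + 1) := by
      unfold fl
      apply Int.floor_nonneg.mpr
      have := ps_lt
      push_cast
      apply mul_nonneg
      · linarith
      · positivity
    obtain ⟨t, ht⟩ := Int.eq_ofNat_of_zero_le hnn
    have ht' : fl ((n : ℤ) + 1) = t := ht
    have hstep := fl_step (n + 1)
    push_cast at hstep
    rw [ht'] at hstep
    have ef : (fl ((n + 1 : ℕ) + 1 : ℤ)).toNat = t + (if mw (n + 1) then 1 else 0) := by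
      push_cast
      rw [hstep]
      split_ifs <;> simp
    rw [ef, ht']
    simp only [List.flatMap_cons, List.flatMap_nil, List.append_nil, Int.toNat_natCast]
    have b1 := fl_le ((n : ℤ) + 1)
    have b2 := lt_fl ((n : ℤ) + 1)
    rw [ht'] at b1 b2
    push_cast at b1 b2
    have p1 := ps_lt
    have p2 := lt_ps
    -- position `n + t + 1` carries the letter `a`
    have hfirst : mw (n + t + 1) = true := by
      unfold mw
      rw [decide_eq_true_iff]
      push_cast
      have hb1' : (t : ℝ) < -ps * (n + 1) := by
        rcases eq_or_lt_of_le b1 with h | h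
        · exfalso
          apply st_ne_zero (j := (n : ℤ) + 1) (k := t) (by omega)
          unfold st; push_cast; linarith
        · exact h
      apply mw_true_iff _ ((n : ℤ) + 1)
      · push_cast; linarith
      · push_cast; linarith
    cases hm : mw (n + 1)
    · simp only [fibMorphism, Bool.false_eq_true, if_false, add_zero]
      rw [show n + 1 + t = n + t + 1 by ring, block_succ, hfirst]
    · simp only [fibMorphism, if_true]
      rw [show n + 1 + (t + 1) = n + t + 1 + 1 by ring, block_succ, block_succ, hfirst]
      -- position `n + t + 2` carries `b`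
      have hsecond : mw (n + t + 1 + 1) = false := by
        by_contra hcon
        have hcon' : mw (n + t + 1 + 1) = true := by simpa using hcon
        have s1 := fl_step (n + t + 1)
        have s2 := fl_step (n + t + 1 + 1)
        rw [hfirst] at s1
        rw [hcon'] at s2
        simp only [if_true] at s1 s2
        push_cast at s1 s2
        rw [hm] at hstep
        simp only [if_true] at hstep
        -- fl (n+2) = t + 1 : (t+1) ≤ θ (n+2)
        have c1 := fl_le ((n : ℤ) + 1 + 1)
        rw [hstep] at c1
        push_cast at c1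
        have c2 := fl_le ((n : ℤ) + t + 1 + 1 + 1)
        have c3 := lt_fl ((n : ℤ) + t + 1)
        rw [s2, s1] at c2
        push_cast at c2 c3
        -- c3 : θ (n + t + 1) < fl (n+t+1) + 1
        have hs := ps_sq
        -- fl (n + t + 1) = n : since θ(n+t+1) < n + 1 and  ≥ n
        have d1 : (n : ℝ) ≤ -ps * (n + t + 1) := by
          have h := mul_le_mul_of_nonneg_left b2.le (show (0 : ℝ) ≤ -ps by linarith)
          have e1 : -ps * (-ps * ((n : ℝ) + 1)) = (ps + 1) * (n + 1) := by
            linear_combination ((n : ℝ) + 1) * hs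
          nlinarith
        have d2 : (n : ℝ) < fl ((n : ℤ) + t + 1) + 1 := by linarith
        have d3 : (n : ℤ) < fl ((n : ℤ) + t + 1) + 1 := by exact_mod_cast d2
        have d4 : (n : ℝ) ≤ fl ((n : ℤ) + t + 1) := by
          have : (n : ℤ) ≤ fl ((n : ℤ) + t + 1) := by omega
          exact_mod_cast this
        -- c2 : fl + 1 + 1 ≤ θ (n + t + 3)
        have d5 : (n : ℝ) + 2 ≤ -ps * (n + t + 1 + 1 + 1) := by linarith
        -- but t + 1 ≤ θ (n+2) gives θ(n+t+3) ≤ θ (n + 2 + θ (n+2)) = n + 2
        have d6 : -ps * ((n : ℝ) + t + 1 + 1 + 1) ≤ -ps * ((n : ℝ) + 2 + -ps * (n + 1 + 1)) := by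
          apply mul_le_mul_of_nonneg_left <;> linarith
        have d7 : -ps * ((n : ℝ) + 2 + -ps * (n + 1 + 1)) = n + 2 := by
          linear_combination ((n : ℝ) + 2) * hs
        -- so equality: t + 1 = θ (n+2), impossible
        have d8 : -ps * ((n : ℝ) + t + 1 + 1 + 1) = n + 2 := by linarith
        apply st_ne_zero (j := (n : ℤ) + t + 1 + 1 + 1) (k := n + 2) (by omega)
        unfold st; push_cast; linarith
      rw [hsecond]
      simp

lemma mw_fixed : IsFibonacciWord mw := by
  intro n
  rw [image_block, block_length]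

lemma fib_unique {u v : ℕ → Bool} (hu : IsFibonacciWord u) (hv : IsFibonacciWord v) :
    ∀ n, initialBlock u n = initialBlock v n := by
  have first : ∀ w : ℕ → Bool, IsFibonacciWord w → w 1 = true := by
    intro w hw
    have := hw 1
    have e : initialBlock w 1 = [w 1] := by simp [initialBlock]
    rw [e] at this
    cases hw1 : w 1
    · rw [hw1] at this
      simp [fibMorphism, initialBlock] at this
      rw [hw1] at this
      exact absurd this (by simp)
    · rfl
  have prefix_of : ∀ {l n : ℕ}, l ≤ n → initialBlock u n = initialBlock v n →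
      initialBlock u l = initialBlock v l := by
    intro l n hln h
    rw [block_append u hln, block_append v hln] at h
    exact (List.append_inj h (by rw [block_length, block_length])).1
  have len : ∀ l : List Bool, l.length ≤ (l.flatMap fibMorphism).length := by
    intro l
    induction l with
    | nil => simp
    | cons a l ih =>
      have h1 : 1 ≤ (fibMorphism a).length := by cases a <;> simp [fibMorphism]
      simp only [List.flatMap_cons, List.length_append, List.length_cons]
      omega
  intro n
  induction n with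
  | zero => simp [initialBlock]
  | succ n ih =>
    rcases Nat.eq_zero_or_pos n with rfl | hn
    · simp [initialBlock, first u hu, first v hv]
    · have h1 := hu n
      have h2 := hv n
      rw [ih] at h1
      rw [h2] at h1
      -- both sides have the same length
      have h3 : n + 1 ≤ ((initialBlock v n).flatMap fibMorphism).length := by
        obtain ⟨k, rfl⟩ : ∃ k, n = k + 1 := ⟨n - 1, by omega⟩
        have e : initialBlock v (k + 1) = v 1 :: (List.range k).map (fun i => v (i + 1 + 1)) := by
          unfold initialBlock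
          rw [List.range_succ_eq_map]
          simp [List.map_map, Function.comp_def]
        rw [e, first v hv]
        simp only [List.flatMap_cons, List.length_append]
        have := len ((List.range k).map (fun i => v (i + 1 + 1)))
        rw [List.length_map, List.length_range] at this
        simp only [fibMorphism, List.length_cons, List.length_nil]
        omega
      rw [block_length] at h1
      exact prefix_of h3 h1.symm

lemma ppl_congr {u v : ℕ → Bool} (h : ∀ n, initialBlock u n = initialBlock v n) (n : ℕ) :
    PPL u n = PPL v n := by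
  unfold PPL
  rw [h]

end Pool.Agent.H308R2.FibPal
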